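import Pool.Agent.H945Z.Had.Order

namespace Pool.Agent.H945Z.Had

open Pool.Agent.Helper292.ForceCH

/-- interpolation data on a linear order coming from the weak Freese-Nation property -/
def Interp (C : Type*) [LinearOrder C] : Prop :=
  ∃ (M : Type) (f g : C → Set M) (lo hi : C → M → Prop), (∀ q, (f q).Countable) ∧
    (∀ q, (g q).Countable) ∧ (∀ q p m, lo q m → hi p m → q ≤ p) ∧
    ∀ q p, q ≤ p → ∃ m, m ∈ f q ∧ m ∈ g p ∧ lo q m ∧ hi p m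

lemma Interp.dual {C : Type*} [LinearOrder C] (h : Interp C) : Interp Cᵒᵈ := by
  obtain ⟨M, f, g, lo, hi, h1, h2, h3, h4⟩ := h
  refine ⟨M, g, f, hi, lo, h2, h1, fun q p m a b => h3 p q m b a, fun q p hqp => ?_⟩
  obtain ⟨m, a, b, c, d⟩ := h4 p q hqp
  exact ⟨m, b, a, d, c⟩

lemma Interp.cof {C : Type*} [LinearOrder C] (h : Interp C) (W : Set C) (hne : W.Nonempty) :
    ∃ s : Om → C, (∀ η, s η ∈ W) ∧ ∀ w ∈ W, ∃ η, w ≤ s η := by
  classical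
  obtain ⟨M, f, g, lo, hi, h1, h2, h3, h4⟩ := h
  by_contra hc
  push Not at hc
  obtain ⟨w0, hw0⟩ := hne
  obtain ⟨em, hem⟩ := exists_emb
  have hB : ∀ T : Set C, ∃ b ∈ W, T.Countable → T ⊆ W → ∀ t ∈ T, t < b := by
    intro T
    by_cases hT : T.Countable ∧ T ⊆ W
    · obtain ⟨u, hu⟩ := (hT.1.insert w0).exists_eq_range (Set.insert_nonempty _ _)
      have hu' : ∀ n, u n ∈ W := fun n => by
        have : u n ∈ insert w0 T := hu ▸ Set.mem_range_self n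
        rcases this with h | h
        exacts [h ▸ hw0, hT.2 h]
      obtain ⟨b, hb, hb'⟩ := hc (fun η => u (Function.invFun em η)) (fun η => hu' _)
      refine ⟨b, hb, fun _ _ t ht => ?_⟩
      obtain ⟨n, rfl⟩ : t ∈ Set.range u := hu ▸ Or.inr ht
      have := hb' (em n)
      rwa [Function.leftInverse_invFun hem n] at this
    · exact ⟨w0, hw0, fun a b => absurd ⟨a, b⟩ hT⟩
  choose B hBW hB using hB
  have hβ : ∀ m : M, ∃ b ∈ W, (∃ p ∈ W, hi p m) → hi b m := by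
    intro m
    by_cases h : ∃ p ∈ W, hi p m
    · obtain ⟨p, hp, hp'⟩ := h
      exact ⟨p, hp, fun _ => hp'⟩
    · exact ⟨w0, hw0, fun h' => absurd h' h⟩
  choose β hβW hβ using hβ
  let w : Om → C := (wellFounded_lt (α := Om)).fix
    fun ξ r => B (⋃ ζ : Set.Iio ξ, β '' f (r ζ.1 ζ.2))
  have hw : ∀ ξ, w ξ = B (⋃ ζ : Set.Iio ξ, β '' f (w ζ.1)) := fun ξ => WellFounded.fix_eq _ _ _
  have hwW : ∀ ξ, w ξ ∈ W := fun ξ => by rw [hw]; exact hBW _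
  have hlt : ∀ ζ ξ, ζ < ξ → ∀ m ∈ f (w ζ), β m < w ξ := by
    intro ζ ξ h m hm
    rw [hw ξ]
    have := (ctble_Iio ξ).to_subtype
    refine hB _ (Set.countable_iUnion fun ζ => (h1 _).image _) ?_ _
      (Set.mem_iUnion.2 ⟨⟨ζ, h⟩, m, hm, rfl⟩)
    rintro _ ⟨_, ⟨ζ, rfl⟩, m, -, rfl⟩
    exact hβW m
  obtain ⟨p, hp, hp'⟩ := hc w hwW
  choose m hm1 hm2 hm3 hm4 using fun ξ => h4 (w ξ) p (hp' ξ).le
  have := (h2 p).to_subtype
  have hni : ¬ Function.Injective (fun ξ => (⟨m ξ, hm2 ξ⟩ : g p)) := fun h =>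
    not_countable (α := Om) h.countable
  obtain ⟨ζ, ξ, he, hne⟩ := Function.not_injective_iff.1 hni
  have he : m ζ = m ξ := congrArg Subtype.val he
  have key : ∀ ζ ξ, m ζ = m ξ → ¬ ζ < ξ := by
    intro ζ ξ he h
    have a := hlt ζ ξ h _ (hm1 ζ)
    have b := h3 _ _ _ (hm3 ξ) (hβ (m ξ) ⟨p, hp, hm4 ξ⟩)
    rw [he] at a
    exact absurd a b.not_gt
  rcases lt_or_gt_of_ne hne with h | h
  exacts [key _ _ he h, key _ _ he.symm h]

lemma Interp.closL {C : Type*} [LinearOrder C] (h : Interp C) :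
    ∃ e : C → Om → Set C, (∀ q η, (e q η).Countable) ∧ ∀ A, Closed e A → EmbL A := by
  have hs : ∀ W : Set C, ∃ s : Om → Set C, (∀ η, (s η).Countable) ∧
      (∀ w ∈ W, ∃ η, ∃ x ∈ s η, x ∈ W ∧ w ≤ x) ∧ ∀ w ∉ W, ∃ η, ∃ x ∈ s η, x ∉ W ∧ x ≤ w := by
    intro W
    have a : ∃ s : Om → Set C, (∀ η, (s η).Countable) ∧ ∀ w ∈ W, ∃ η, ∃ x ∈ s η, x ∈ W ∧ w ≤ x := by
      rcases W.eq_empty_or_nonempty with rfl | hne
      · exact ⟨fun _ => ∅, by simp, by simp⟩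
      · obtain ⟨s, h1, h2⟩ := h.cof W hne
        refine ⟨fun η => {s η}, fun η => Set.countable_singleton _, fun w hw => ?_⟩
        obtain ⟨η, hη⟩ := h2 w hw
        exact ⟨η, s η, rfl, h1 η, hη⟩
    have b : ∃ s : Om → Set C, (∀ η, (s η).Countable) ∧ ∀ w ∉ W, ∃ η, ∃ x ∈ s η, x ∉ W ∧ x ≤ w := by
      rcases (Wᶜ).eq_empty_or_nonempty with h0 | hne
      · refine ⟨fun _ => ∅, by simp, fun w hw => ?_⟩
        have : w ∈ Wᶜ := hw
        simp [h0] at this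
      · obtain ⟨s, h1, h2⟩ := h.dual.cof (Wᶜ : Set C) hne
        refine ⟨fun η => {s η}, fun η => Set.countable_singleton _, fun w hw => ?_⟩
        obtain ⟨η, hη⟩ := h2 w hw
        exact ⟨η, s η, rfl, h1 η, hη⟩
    obtain ⟨s, h1, h2⟩ := a
    obtain ⟨t, h3, h4⟩ := b
    refine ⟨fun η => s η ∪ t η, fun η => (h1 η).union (h3 η), fun w hw => ?_, fun w hw => ?_⟩
    · obtain ⟨η, x, hx, h⟩ := h2 w hw
      exact ⟨η, x, Or.inl hx, h⟩
    · obtain ⟨η, x, hx, h⟩ := h4 w hw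
      exact ⟨η, x, Or.inr hx, h⟩
  choose s hs1 hs2 hs3 using hs
  obtain ⟨M, f, g, lo, hi, h1, h2, h3, h4⟩ := h
  let W : M → Set C := fun m => {q | ∃ q', q ≤ q' ∧ lo q' m}
  refine ⟨fun q η => ⋃ m ∈ f q, s (W m) η, fun q η => (h1 q).biUnion fun m _ => hs1 _ _, ?_⟩
  intro A hA p hp
  have key : ∀ m, ∃ u, (hi p m ∧ ∃ q ∈ A, m ∈ f q) → u ∈ A ∧ u < p ∧ u ∉ W m := by
    intro m
    by_cases hm : hi p m ∧ ∃ q ∈ A, m ∈ f q
    · obtain ⟨hm1, q, hq, hm2⟩ := hm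
      have hsub : ∀ η, s (W m) η ⊆ A := fun η =>
        (Set.subset_biUnion_of_mem (u := fun m => s (W m) η) hm2).trans (hA q hq η)
      by_cases hpW : p ∈ W m
      · obtain ⟨η, x, hx, ⟨x', hx1, hx2⟩, hpx⟩ := hs2 _ p hpW
        have : x = p := le_antisymm (hx1.trans (h3 _ _ _ hx2 hm1)) hpx
        exact absurd (this ▸ hsub η hx) hp
      · obtain ⟨η, x, hx, hx1, hpx⟩ := hs3 _ p hpW
        exact ⟨x, fun _ => ⟨hsub η hx, lt_of_le_of_ne hpx (fun e => hp (e ▸ hsub η hx)), hx1⟩⟩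
    · exact ⟨p, fun h => absurd h hm⟩
  choose u hu using key
  refine ⟨u '' {m | m ∈ g p ∧ hi p m ∧ ∃ q ∈ A, m ∈ f q}, ?_,
    ((h2 p).mono fun m h => h.1).image _, ?_, ?_⟩
  · rintro _ ⟨m, hm, rfl⟩
    exact (hu m hm.2).1
  · rintro _ ⟨m, hm, rfl⟩
    exact (hu m hm.2).2.1
  · intro q hq hqp
    obtain ⟨m, a, b, c, d⟩ := h4 q p hqp.le
    refine ⟨u m, ⟨m, ⟨b, d, q, hq, a⟩, rfl⟩, ?_⟩
    by_contra hlt
    exact (hu m ⟨d, q, hq, a⟩).2.2 ⟨q, (not_le.1 hlt).le, c⟩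

lemma Interp.clos {C : Type*} [LinearOrder C] (h : Interp C) :
    ∃ e : C → Om → Set C, (∀ q η, (e q η).Countable) ∧ ∀ A, Closed e A → EmbL A ∧ EmbU A := by
  obtain ⟨e, h1, h2⟩ := h.closL
  obtain ⟨e', h3, h4⟩ := h.dual.closL
  refine ⟨fun q η => e q η ∪ e' q η, fun q η => (h1 q η).union (h3 q η), fun A hA => ⟨?_, ?_⟩⟩
  · exact h2 A fun q hq η => Set.subset_union_left.trans (hA q hq η)
  · exact h4 A fun q hq η => Set.subset_union_right.trans (hA q hq η)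

end Pool.Agent.H945Z.Had
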