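import Pool.Agent.Helper292.ForceCH
import Pool.Agent.Helper290.Calk.Basic

/-!
# The weak Freese-Nation property of the power set of the natural numbers
-/

namespace Pool.Agent.H945Z.Had

open Pool.Agent.Helper292.ForceCH

/-- The weak Freese-Nation property of `P(ℕ)`, for a listing `E` of all subsets of `ℕ` by the
index set `J`: every index `x` has a countable set `F x` of indices, and whenever `E x ⊆ E y`
there is `m ∈ F x ∩ F y` with `E x ⊆ E m ⊆ E y`. -/
def WFN (J : Type) : Prop :=
  ∃ (E : J → Set ℕ) (F : J → Set J),
    (∀ a : Set ℕ, ∃ x, a = E x) ∧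
    (∀ x, ∃ R : ℕ → J, ∀ y ∈ F x, ∃ k, R k = y) ∧
    ∀ x y, E x ⊆ E y → ∃ m, m ∈ F x ∧ m ∈ F y ∧ E x ⊆ E m ∧ E m ⊆ E y

/-- The subset of `ℕ` named by `a` is contained in the subset named by `b`. -/
def SubName {P : Type} [Preorder P] (a b : ℕ → Set P) : Set P :=
  fall fun n : ℕ => fimp (meets (a n)) (meets (b n))

/-- The sentence of the forcing language of `P` saying that `WFN J` holds in the extension
(clause by clause the same statement, `J` being a ground model set). -/
def WFNHolds (P : Type) [Preorder P] (J : Type) : Set P :=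
  fex fun E : J → ℕ → Set P => fex fun F : J → J → Set P =>
    fand (fall fun a : ℕ → Set P => fex fun x : J =>
      fall fun n : ℕ => fiff (meets (a n)) (meets (E x n)))
    (fand (fall fun x : J => fex fun R : ℕ → J → Set P => fand (IsFun R)
        (fall fun y : J => fimp (meets (F x y)) (fex fun k : ℕ => meets (R k y))))
      (fall fun x : J => fall fun y : J => fimp (SubName (E x) (E y))
        (fex fun m : J => fand (meets (F x m)) (fand (meets (F y m))
          (fand (SubName (E x) (E m)) (SubName (E m) (E y)))))))

/-- A maximal chain in the set of projections of a star ring `A`, ordered by `p ≤ q ↔ p q = p`: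
a set of projections any two of which are comparable, not properly contained in another one. -/
def IsMaxChainProj {A : Type*} [Ring A] [StarRing A] (C : Set A) : Prop :=
  (∀ p ∈ C, IsStarProjection p) ∧ (∀ p ∈ C, ∀ q ∈ C, p * q = p ∨ q * p = q) ∧
    ∀ C' : Set A, (∀ p ∈ C', IsStarProjection p) → (∀ p ∈ C', ∀ q ∈ C', p * q = p ∨ q * p = q) →
      C ⊆ C' → C' = C

end Pool.Agent.H945Z.Had
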