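import Pool.Agent.H945Z.Had.Sat
import Pool.Agent.H945Z.Had.Clos
import Pool.Agent.H945Z.Had.Defs

namespace Pool.Agent.H945Z.Had

open Pool.Agent.Helper290.Calk
open scoped InnerProductSpace
open Filter Topology

section generic

variable {A : Type*} [Ring A] [StarRing A] {C : Set A}

def Ch (_hC : IsMaxChainProj C) : Type _ := C

def Ch.val {hC : IsMaxChainProj C} (p : Ch hC) : A := Subtype.val p

lemma Ch.mem {hC : IsMaxChainProj C} (p : Ch hC) : p.val ∈ C := Subtype.property p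

lemma Ch.proj {hC : IsMaxChainProj C} (p : Ch hC) : IsStarProjection p.val := hC.1 _ p.mem

lemma Ch.ext' {hC : IsMaxChainProj C} {p q : Ch hC} (h : p.val = q.val) : p = q := Subtype.ext h

noncomputable instance (hC : IsMaxChainProj C) : LinearOrder (Ch hC) where
  le p q := p.val * q.val = p.val
  le_refl p := p.proj.isIdempotentElem
  le_trans p q r h1 h2 := by rw [← h1, mul_assoc, h2]
  le_antisymm p q h1 h2 := Ch.ext' (h1.symm.trans (proj_swap q.proj p.proj h2))
  le_total p q := hC.2.1 _ p.mem _ q.mem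
  toDecidableLE := Classical.decRel _

lemma Ch.le_iff {hC : IsMaxChainProj C} {p q : Ch hC} : p ≤ q ↔ p.val * q.val = p.val := Iff.rfl

lemma mem_of_comp (hC : IsMaxChainProj C) {r : A} (hr : IsStarProjection r)
    (h : ∀ c ∈ C, c * r = c ∨ r * c = r) : r ∈ C := by
  have := hC.2.2 (insert r C) (by
      rintro p (rfl | hp)
      exacts [hr, hC.1 p hp]) (by
      rintro p (rfl | hp) q (rfl | hq)
      · exact Or.inl hr.isIdempotentElem
      · exact (h q hq).symm
      · exact h p hp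
      · exact hC.2.1 p hp q hq) (Set.subset_insert _ _)
  rw [← this]; exact Set.mem_insert _ _

lemma between (hC : IsMaxChainProj C) (L U : Set (Ch hC)) {r : A} (hr : IsStarProjection r)
    (h1 : ∀ l ∈ L, l.val * r = l.val ∧ l.val ≠ r) (h2 : ∀ u ∈ U, r * u.val = r ∧ r ≠ u.val) :
    ∃ c, (∀ l ∈ L, l < c) ∧ ∀ u ∈ U, c < u := by
  by_contra hc
  have hm : r ∈ C := by
    refine mem_of_comp hC hr fun c hcC => ?_
    let c' : Ch hC := (⟨c, hcC⟩ : C)
    by_cases ha : ∀ l ∈ L, l < c'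
    · have hb : ¬ ∀ u ∈ U, c' < u := fun hb => hc ⟨c', ha, hb⟩
      push Not at hb
      obtain ⟨u, hu, hb⟩ := hb
      have hb' : u.val * c = u.val := hb
      right
      rw [← (h2 u hu).1, mul_assoc, hb']
    · push Not at ha
      obtain ⟨l, hl, ha⟩ := ha
      have ha' : c * l.val = c := ha
      left
      rw [← ha', mul_assoc, (h1 l hl).1]
  let r' : Ch hC := (⟨r, hm⟩ : C)
  refine hc ⟨r', fun l hl => lt_of_le_of_ne (h1 l hl).1 fun e => (h1 l hl).2 ?_,
    fun u hu => lt_of_le_of_ne (h2 u hu).1 fun e => (h2 u hu).2 ?_⟩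
  · rw [e]; rfl
  · rw [← e]; rfl

lemma ends (hC : IsMaxChainProj C) (h01 : (0 : A) ≠ 1) :
    ∃ c0 c1 : Ch hC, c0 < c1 ∧ (∀ c, c0 ≤ c) ∧ ∀ c, c ≤ c1 := by
  have m0 : (0 : A) ∈ C := mem_of_comp hC (IsStarProjection.zero A) fun c _ => Or.inr (zero_mul c)
  have m1 : (1 : A) ∈ C := mem_of_comp hC (IsStarProjection.one A) fun c _ => Or.inl (mul_one c)
  refine ⟨(⟨0, m0⟩ : C), (⟨1, m1⟩ : C), lt_of_le_of_ne (zero_mul (1 : A)) fun e => h01 ?_,
    fun c => zero_mul c.val, fun c => mul_one c.val⟩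
  exact congrArg Ch.val e

end generic

lemma run_max {α : Type*} [LinearOrder α] {L : Set α} (hc : L.Countable) (hn : L.Nonempty) :
    ∃ l : ℕ → α, (∀ n, l n ∈ L) ∧ (∀ n, l n ≤ l (n + 1)) ∧ ∀ a ∈ L, ∃ n, a ≤ l n := by
  obtain ⟨f, hf⟩ := hc.exists_eq_range hn
  let l : ℕ → α := fun n => Nat.rec (f 0) (fun k a => max a (f (k + 1))) n
  refine ⟨l, fun n => ?_, fun n => le_max_left _ _, fun a ha => ?_⟩
  · induction n with
    | zero => rw [hf]; exact ⟨0, rfl⟩
    | succ n ih =>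
      show max (l n) (f (n + 1)) ∈ L
      rcases max_choice (l n) (f (n + 1)) with h | h <;> rw [h]
      · exact ih
      · rw [hf]; exact ⟨_, rfl⟩
  · rw [hf] at ha
    obtain ⟨n, rfl⟩ := ha
    refine ⟨n, ?_⟩
    cases n with
    | zero => exact le_rfl
    | succ n => exact le_max_right _ _

variable {H : Type*} [NormedAddCommGroup H] [InnerProductSpace ℂ H] [CompleteSpace H]

lemma sat [TopologicalSpace.SeparableSpace H] {C : Set (Calkin H)} (hC : IsMaxChainProj C) :
    Sat (Ch hC) := by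
  intro L U hL hU nL nU hLU
  obtain ⟨l, l1, l2, l3⟩ := run_max hL nL
  obtain ⟨u, u1, u2, u3⟩ := run_max (α := (Ch hC)ᵒᵈ) hU nU
  let u' : ℕ → Ch hC := u
  have u2' : ∀ n, u' (n + 1) ≤ u' n := u2
  have u3' : ∀ a ∈ U, ∃ n, u' n ≤ a := u3
  have u1' : ∀ n, u' n ∈ U := u1
  by_cases hm : ∃ q ∈ L, ∀ a ∈ L, a ≤ q
  · obtain ⟨q, hq, hm⟩ := hm
    obtain ⟨r, a, b, c, d⟩ := lemA q.val (fun n => (u' n).val) q.proj (fun n => (u' n).proj) u2'
      (fun n => (hLU q hq _ (u1' n)).le) (fun n e => (hLU q hq _ (u1' n)).ne (Ch.ext' e))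
    refine between hC L U a (fun x hx => ⟨?_, fun e => c ?_⟩) fun y hy => ?_
    · rw [← Ch.le_iff.1 (hm x hx), mul_assoc, b]
    · have : q ≤ x := by rw [Ch.le_iff, e, b]
      rw [← e, le_antisymm this (hm x hx)]
    · obtain ⟨n, hn⟩ := u3' y hy
      refine ⟨by rw [← (d n).1, mul_assoc, Ch.le_iff.1 hn], fun e => (d n).2 ?_⟩
      have : y ≤ u' n := by rw [Ch.le_iff, ← e, (d n).1]
      rw [e, le_antisymm this hn]
  by_cases hm' : ∃ p ∈ U, ∀ a ∈ U, p ≤ a
  · obtain ⟨p, hp, hm'⟩ := hm'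
    obtain ⟨r, a, b, c, d⟩ := lemA' p.val (fun n => (l n).val) p.proj (fun n => (l n).proj) l2
      (fun n => (hLU _ (l1 n) p hp).le) (fun n e => (hLU _ (l1 n) p hp).ne (Ch.ext' e))
    refine between hC L U a (fun x hx => ?_) fun y hy => ⟨?_, fun e => c ?_⟩
    · obtain ⟨n, hn⟩ := l3 x hx
      refine ⟨by rw [← Ch.le_iff.1 hn, mul_assoc, (d n).1], fun e => (d n).2 ?_⟩
      have : l n ≤ x := by rw [Ch.le_iff, e, (d n).1]
      rw [← e, le_antisymm this hn]
    · rw [← b, mul_assoc, Ch.le_iff.1 (hm' y hy)]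
    · have : y ≤ p := by rw [Ch.le_iff, ← e, b]
      rw [e, le_antisymm this (hm' y hy)]
  obtain ⟨r, a, b⟩ := lemB (fun n => (l n).val) (fun n => (u' n).val) (fun n => (l n).proj)
    (fun n => (u' n).proj) l2 u2' (fun n m => (hLU _ (l1 n) _ (u1' m)).le)
  have h1 : ∀ x ∈ L, x.val * r = x.val := by
    intro x hx
    obtain ⟨n, hn⟩ := l3 x hx
    rw [← Ch.le_iff.1 hn, mul_assoc, (b n).1]
  have h2 : ∀ y ∈ U, r * y.val = r := by
    intro y hy
    obtain ⟨n, hn⟩ := u3' y hy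
    rw [← (b n).2, mul_assoc, Ch.le_iff.1 hn]
  refine between hC L U a (fun x hx => ⟨h1 x hx, fun e => hm ⟨x, hx, fun z hz => ?_⟩⟩)
    fun y hy => ⟨h2 y hy, fun e => hm' ⟨y, hy, fun z hz => ?_⟩⟩
  · rw [Ch.le_iff, e, h1 z hz]
  · rw [Ch.le_iff, ← e, h2 z hz]

omit [CompleteSpace H] in
lemma compact_small {x : ℕ → H} (hx : DenseRange x) {K : H →L[ℂ] H} (hK : IsCompactOperator K) :
    ∃ n : ℕ, ∃ _ : FiniteDimensional ℂ (Submodule.span ℂ (x '' Set.Iio n)),
      ‖(1 - (Submodule.span ℂ (x '' Set.Iio n)).starProjection) * K‖ ≤ 1 / 2 := by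
  have hc : IsCompact (closure (K '' Metric.closedBall 0 1)) :=
    hK.isCompact_closure_image_closedBall 1
  obtain ⟨t, ht⟩ := hc.elim_finite_subcover (fun i : ℕ => Metric.ball (x i) (1 / 4))
    (fun _ => Metric.isOpen_ball) (fun y _ => by
      obtain ⟨i, hi⟩ := hx.exists_dist_lt y (show (0 : ℝ) < 1 / 4 by norm_num)
      exact Set.mem_iUnion.2 ⟨i, hi⟩)
  obtain ⟨n, hn⟩ := t.bddAbove
  have hfd : FiniteDimensional ℂ (Submodule.span ℂ (x '' Set.Iio (n + 1))) :=
    FiniteDimensional.span_of_finite ℂ ((Set.finite_Iio _).image _)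
  refine ⟨n + 1, hfd, ContinuousLinearMap.opNorm_le_of_unit_norm (by norm_num) fun y hy => ?_⟩
  have := ht (subset_closure ⟨y, by simp [hy], rfl⟩)
  simp only [Set.mem_iUnion] at this
  obtain ⟨i, hi, hy'⟩ := this
  set R := (Submodule.span ℂ (x '' Set.Iio (n + 1))).starProjection
  have h1 : R (x i) = x i := Submodule.starProjection_eq_self_iff.2
    (Submodule.subset_span (Set.mem_image_of_mem x
      (show i ∈ Set.Iio (n + 1) from Nat.lt_succ_of_le (hn hi))))
  have h2 : ((1 - R) * K) y = (K y - x i) - R (K y - x i) := by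
    rw [map_sub, h1]
    show K y - R (K y) = _
    abel
  have h3 : ‖R (K y - x i)‖ ≤ ‖K y - x i‖ := Submodule.norm_starProjection_apply_le _ _
  have h4 : ‖K y - x i‖ < 1 / 4 := by simpa [dist_eq_norm] using hy'
  rw [h2]
  linarith [norm_sub_le (K y - x i) (R (K y - x i))]

lemma idem_small {G : H →L[ℂ] H} (hG : ‖G‖ ≤ 1 / 2) (he : π G * π G = π G) : π G = 0 := by
  have hu : IsUnit (1 - G) := (Units.oneSub G (by linarith)).isUnit
  have hu' := hu.map (π (H := H))
  rw [map_sub, map_one] at hu'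
  apply hu'.mul_right_cancel
  rw [mul_sub, mul_one, he, sub_self, zero_mul]

/-- code of an operator -/
def codeA (x : ℕ → H) (T : H →L[ℂ] H) : Set ℕ :=
  {i | ‖T (x i.unpair.1) - x i.unpair.2.unpair.1‖ < 1 / ((i.unpair.2.unpair.2 : ℝ) + 1)}

def codeB (x : ℕ → H) (S : H →L[ℂ] H) : Set ℕ :=
  {i | ‖S (x i.unpair.2.unpair.1)‖ ≤
    ‖x i.unpair.1‖ / 2 + ‖S‖ * (1 / ((i.unpair.2.unpair.2 : ℝ) + 1))}

omit [CompleteSpace H] in
lemma code_sub_iff {x : ℕ → H} (hx : DenseRange x) (T S : H →L[ℂ] H) :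
    codeA x T ⊆ codeB x S ↔ ‖S * T‖ ≤ 1 / 2 := by
  constructor
  · intro h
    refine ContinuousLinearMap.opNorm_le_bound _ (by norm_num) fun y => ?_
    refine hx.induction_on y (isClosed_le (by fun_prop) (by fun_prop)) fun i => ?_
    refine le_of_forall_pos_le_add fun ε hε => ?_
    obtain ⟨k, hk⟩ := exists_nat_one_div_lt (show 0 < ε / (2 * (‖S‖ + 1)) by positivity)
    obtain ⟨j, hj⟩ := hx.exists_dist_lt (T (x i))
      (show (0 : ℝ) < 1 / ((k : ℝ) + 1) by positivity)
    rw [dist_eq_norm] at hj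
    have h1 : Nat.pair i (Nat.pair j k) ∈ codeA x T := by
      simpa only [codeA, Set.mem_setOf_eq, Nat.unpair_pair] using hj
    have h2 := h h1
    simp only [codeB, Set.mem_setOf_eq, Nat.unpair_pair] at h2
    have h3 : (S * T) (x i) = S (x j) + S (T (x i) - x j) := by
      rw [map_sub]
      show S (T (x i)) = _
      abel
    have h4 := S.le_opNorm (T (x i) - x j)
    have h5 : ‖S‖ * ‖T (x i) - x j‖ ≤ ‖S‖ * (1 / ((k : ℝ) + 1)) :=
      mul_le_mul_of_nonneg_left hj.le (norm_nonneg _)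
    have h6 : 2 * (‖S‖ + 1) * (1 / ((k : ℝ) + 1)) ≤ ε := by
      rw [lt_div_iff₀ (by positivity)] at hk
      linarith
    have h7 : (0 : ℝ) < 1 / ((k : ℝ) + 1) := by positivity
    rw [h3]
    have h8 := norm_add_le (S (x j)) (S (T (x i) - x j))
    nlinarith
  · intro h i hi
    simp only [codeA, Set.mem_setOf_eq] at hi
    simp only [codeB, Set.mem_setOf_eq]
    generalize x i.unpair.1 = y at hi ⊢
    generalize x i.unpair.2.unpair.1 = z at hi ⊢
    have h3 : S z = (S * T) y - S (T y - z) := by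
      rw [map_sub]
      show _ = S (T y) - _
      abel
    have h4 := S.le_opNorm (T y - z)
    have h5 := mul_le_mul_of_nonneg_left hi.le (norm_nonneg S)
    have h6 := (S * T).le_opNorm y
    have h7 := mul_le_mul_of_nonneg_right h (norm_nonneg y)
    rw [h3]
    linarith [norm_sub_le ((S * T) y) (S (T y - z))]

lemma interp [TopologicalSpace.SeparableSpace H] {J : Type} (hJ : WFN J) {C : Set (Calkin H)}
    (hC : IsMaxChainProj C) : Interp (Ch hC) := by
  obtain ⟨E, F, hE, hF, hI⟩ := hJ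
  choose j hj using hE
  have hFc : ∀ x, (F x).Countable := by
    intro x
    obtain ⟨R, hR⟩ := hF x
    exact (Set.countable_range R).mono fun y hy => hR y hy
  obtain ⟨x, hx⟩ := TopologicalSpace.exists_dense_seq H
  choose T hT using fun q : Ch hC => π_surjective q.val
  have hfd : ∀ n, FiniteDimensional ℂ (Submodule.span ℂ (x '' Set.Iio n)) := fun n =>
    FiniteDimensional.span_of_finite ℂ ((Set.finite_Iio _).image _)
  let S : ℕ → Ch hC → H →L[ℂ] H := fun n p =>
    (1 - (Submodule.span ℂ (x '' Set.Iio n)).starProjection) * (1 - T p)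
  have hS : ∀ n p q, π (S n p * T q) = (1 - p.val) * q.val := by
    intro n p q
    simp only [S]
    rw [map_mul, map_mul, map_sub, map_sub, map_one, π_proj_zero, sub_zero, one_mul, hT, hT]
  refine ⟨J, fun q => F (j (codeA x (T q))), fun p => ⋃ n, F (j (codeB x (S n p))),
    fun q m => codeA x (T q) ⊆ E m, fun p m => ∃ n, E m ⊆ codeB x (S n p), fun q => hFc _,
    fun p => Set.countable_iUnion fun n => hFc _, ?_, ?_⟩
  · rintro q p m h1 ⟨n, h2⟩
    have h3 := (code_sub_iff hx _ _).1 (h1.trans h2)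
    have h4 := idem_small h3 (by
      rw [hS]
      rcases le_total q p with h | h
      · rw [sub_mul, one_mul, proj_swap q.proj p.proj h, sub_self, zero_mul]
      · have h' : p.val * q.val = p.val := h
        rw [sub_mul, one_mul, h']
        exact (proj_sub p.proj q.proj h').isIdempotentElem)
    rw [hS, sub_mul, one_mul, sub_eq_zero] at h4
    exact proj_swap' p.proj q.proj h4.symm
  · intro q p h
    have h1 : IsCompactOperator ((1 - T p) * T q : H →L[ℂ] H) := by
      rw [← π_eq_zero_iff, map_mul, map_sub, map_one, hT, hT, sub_mul, one_mul,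
        proj_swap q.proj p.proj h, sub_self]
    obtain ⟨n, _, hn⟩ := compact_small hx h1
    rw [← mul_assoc] at hn
    have h2 := (code_sub_iff hx _ _).2 hn
    obtain ⟨m, a, b, c, d⟩ := hI (j (codeA x (T q))) (j (codeB x (S n p)))
      (by rw [← hj, ← hj]; exact h2)
    rw [← hj] at c d
    exact ⟨m, a, Set.mem_iUnion.2 ⟨n, b⟩, c, n, d⟩

theorem chains_iso [TopologicalSpace.SeparableSpace H] (hH : ¬ FiniteDimensional ℂ H) {J : Type}
    (hJ : WFN J) {C D : Set (Calkin H)} (hC : IsMaxChainProj C) (hD : IsMaxChainProj D) :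
    ∃ f : C ≃ D, ∀ a b : C, a.1 * b.1 = a.1 ↔ (f a).1 * (f b).1 = (f a).1 := by
  have h01 : (0 : Calkin H) ≠ 1 := by
    intro e
    rw [← map_one (π (H := H))] at e
    exact hH (isCompactOperator_id_iff_finiteDimensional.1 (π_eq_zero_iff.1 e.symm))
  obtain ⟨f⟩ := iso_of_nice (C := Ch hC) (D := Ch hD) ⟨sat hC, ends hC h01, (interp hJ hC).clos⟩
    ⟨sat hD, ends hD h01, (interp hJ hD).clos⟩
  exact ⟨f.toEquiv, fun a b => (f.le_iff_le (x := a) (y := b)).symm⟩

end Pool.Agent.H945Z.Had
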