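import Pool.Agent.Helper292.ForceCH

namespace Pool.Agent.H945Z.Had

open Pool.Agent.Helper292.ForceCH

lemma ctble_Iio (a : Om) : (Set.Iio a).Countable := Set.countable_coe_iff.1 (countable_Iio a)

instance : Uncountable Om := by
  rw [← not_countable_iff]
  intro h
  obtain ⟨f, hf⟩ := exists_surjective_nat Om
  obtain ⟨a, ha⟩ := exists_bound f
  obtain ⟨n, rfl⟩ := hf a
  exact lt_irrefl _ (ha n)

section BF

variable {C D : Type*} [LinearOrder C] [LinearOrder D]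

def PIso (Φ : Set (C × D)) : Prop := ∀ a ∈ Φ, ∀ b ∈ Φ, a.1 < b.1 ↔ a.2 < b.2

def Sat (C : Type*) [LinearOrder C] : Prop :=
  ∀ L U : Set C, L.Countable → U.Countable → L.Nonempty → U.Nonempty →
    (∀ l ∈ L, ∀ u ∈ U, l < u) → ∃ r, (∀ l ∈ L, l < r) ∧ ∀ u ∈ U, r < u

def EmbL (A : Set C) : Prop :=
  ∀ p ∉ A, ∃ L ⊆ A, L.Countable ∧ (∀ l ∈ L, l < p) ∧ ∀ q ∈ A, q < p → ∃ l ∈ L, q ≤ l

def EmbU (A : Set C) : Prop :=
  ∀ p ∉ A, ∃ U ⊆ A, U.Countable ∧ (∀ u ∈ U, p < u) ∧ ∀ q ∈ A, p < q → ∃ u ∈ U, u ≤ q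

lemma PIso.mono {Φ Ψ : Set (C × D)} (h : PIso Ψ) (hs : Φ ⊆ Ψ) : PIso Φ :=
  fun a ha b hb => h a (hs ha) b (hs hb)

lemma PIso.le {Φ : Set (C × D)} (h : PIso Φ) {a b : C × D} (ha : a ∈ Φ) (hb : b ∈ Φ) :
    a.1 ≤ b.1 ↔ a.2 ≤ b.2 := by
  rw [← not_lt, ← not_lt, h b hb a ha]

lemma PIso.injOn {Φ : Set (C × D)} (h : PIso Φ) : Set.InjOn Prod.fst Φ := by
  intro a ha b hb e
  exact Prod.ext e (le_antisymm ((h.le ha hb).1 e.le) ((h.le hb ha).1 e.ge))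

lemma one_point (hD : Sat D) (Φ S : Set (C × D)) (hS : S.Countable) (hp : PIso (Φ ∪ S))
    (hL : EmbL (Prod.fst '' Φ)) (hU : EmbU (Prod.fst '' Φ)) {a0 a1 : C × D} (m0 : a0 ∈ Φ)
    (m1 : a1 ∈ Φ) (h0 : ∀ c, a0.1 ≤ c) (h1 : ∀ c, c ≤ a1.1) (p : C) :
    ∃ d, PIso (Φ ∪ insert (p, d) S) := by
  by_cases hp' : p ∈ Prod.fst '' (Φ ∪ S)
  · obtain ⟨⟨p', d⟩, ha, rfl⟩ := hp'
    refine ⟨d, hp.mono ?_⟩
    rintro x (hx | rfl | hx)
    exacts [Or.inl hx, ha, Or.inr hx]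
  have hpΦ : p ∉ Prod.fst '' Φ := fun h => hp' (Set.image_mono Set.subset_union_left h)
  have hne : ∀ a ∈ Φ ∪ S, a.1 ≠ p := fun a ha e => hp' ⟨a, ha, e⟩
  obtain ⟨L, hLs, hLc, hL1, hL2⟩ := hL p hpΦ
  obtain ⟨U, hUs, hUc, hU1, hU2⟩ := hU p hpΦ
  have hc : ∀ W : Set C, W.Countable → ({a | a ∈ Φ ∧ a.1 ∈ W} : Set (C × D)).Countable := by
    intro W hW
    refine Set.countable_of_injective_of_countable_image (f := Prod.fst)
      ((hp.mono Set.subset_union_left).injOn.mono fun a ha => ha.1) (hW.mono ?_)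
    rintro _ ⟨a, ha, rfl⟩
    exact ha.2
  let TL : Set (C × D) := {a | a ∈ insert a0 ({a | a ∈ Φ ∧ a.1 ∈ L} ∪ S) ∧ a.1 < p}
  let TU : Set (C × D) := {a | a ∈ insert a1 ({a | a ∈ Φ ∧ a.1 ∈ U} ∪ S) ∧ p < a.1}
  have sL : TL ⊆ Φ ∪ S := by
    rintro a ⟨rfl | h | h, -⟩
    exacts [Or.inl m0, Or.inl h.1, Or.inr h]
  have sU : TU ⊆ Φ ∪ S := by
    rintro a ⟨rfl | h | h, -⟩
    exacts [Or.inl m1, Or.inl h.1, Or.inr h]
  obtain ⟨d, hd1, hd2⟩ := hD (Prod.snd '' TL) (Prod.snd '' TU)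
    (((((hc L hLc).union hS).insert a0).mono fun a ha => ha.1).image _)
    (((((hc U hUc).union hS).insert a1).mono fun a ha => ha.1).image _)
    ⟨a0.2, a0, ⟨Or.inl rfl, lt_of_le_of_ne (h0 p) (hne a0 (Or.inl m0))⟩, rfl⟩
    ⟨a1.2, a1, ⟨Or.inl rfl, lt_of_le_of_ne (h1 p) (hne a1 (Or.inl m1)).symm⟩, rfl⟩ (by
      rintro _ ⟨a, ha, rfl⟩ _ ⟨b, hb, rfl⟩
      exact (hp a (sL ha) b (sU hb)).1 (ha.2.trans hb.2))
  have k1 : ∀ a ∈ Φ ∪ S, a.1 < p → a.2 < d := by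
    rintro a (ha | ha) hlt
    · obtain ⟨l, hl, hal⟩ := hL2 a.1 ⟨a, ha, rfl⟩ hlt
      obtain ⟨b, hb, rfl⟩ := hLs hl
      exact ((hp.le (Or.inl ha) (Or.inl hb)).1 hal).trans_lt
        (hd1 _ ⟨b, ⟨Or.inr (Or.inl ⟨hb, hl⟩), hL1 _ hl⟩, rfl⟩)
    · exact hd1 _ ⟨a, ⟨Or.inr (Or.inr ha), hlt⟩, rfl⟩
  have k2 : ∀ a ∈ Φ ∪ S, p < a.1 → d < a.2 := by
    rintro a (ha | ha) hlt
    · obtain ⟨l, hl, hal⟩ := hU2 a.1 ⟨a, ha, rfl⟩ hlt
      obtain ⟨b, hb, rfl⟩ := hUs hl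
      exact (hd2 _ ⟨b, ⟨Or.inr (Or.inl ⟨hb, hl⟩), hU1 _ hl⟩, rfl⟩).trans_le
        ((hp.le (Or.inl hb) (Or.inl ha)).1 hal)
    · exact hd2 _ ⟨a, ⟨Or.inr (Or.inr ha), hlt⟩, rfl⟩
  have k3 : ∀ a ∈ Φ ∪ S, (a.1 < p ↔ a.2 < d) ∧ (p < a.1 ↔ d < a.2) := by
    intro a ha
    rcases lt_or_gt_of_ne (hne a ha) with h | h
    · exact ⟨iff_of_true h (k1 a ha h), iff_of_false h.not_gt (k1 a ha h).not_gt⟩
    · exact ⟨iff_of_false h.not_gt (k2 a ha h).not_gt, iff_of_true h (k2 a ha h)⟩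
  refine ⟨d, ?_⟩
  rw [Set.union_insert]
  rintro a (rfl | ha) b (rfl | hb)
  · simp
  · exact (k3 b hb).2
  · exact (k3 a ha).1
  · exact hp a ha b hb

lemma PIso.swap {Φ : Set (C × D)} (h : PIso Φ) : PIso (Prod.swap ⁻¹' Φ) :=
  fun a ha b hb => (h a.swap ha b.swap hb).symm

lemma fst_swap (Φ : Set (C × D)) : Prod.fst '' (Prod.swap ⁻¹' Φ) = Prod.snd '' Φ := by
  ext d
  constructor
  · rintro ⟨a, ha, rfl⟩; exact ⟨a.swap, ha, rfl⟩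
  · rintro ⟨a, ha, rfl⟩; exact ⟨a.swap, ha, rfl⟩

lemma one_point' (hC : Sat C) (Φ S : Set (C × D)) (hS : S.Countable) (hp : PIso (Φ ∪ S))
    (hL : EmbL (Prod.snd '' Φ)) (hU : EmbU (Prod.snd '' Φ)) {a0 a1 : C × D} (m0 : a0 ∈ Φ)
    (m1 : a1 ∈ Φ) (h0 : ∀ c, a0.2 ≤ c) (h1 : ∀ c, c ≤ a1.2) (q : D) :
    ∃ c, PIso (Φ ∪ insert (c, q) S) := by
  obtain ⟨c, hc⟩ := one_point hC (Prod.swap ⁻¹' Φ) (Prod.swap ⁻¹' S)
    (hS.preimage Prod.swap_injective) hp.swap (by rwa [fst_swap]) (by rwa [fst_swap])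
    (a0 := a0.swap) (a1 := a1.swap) m0 m1 h0 h1 q
  refine ⟨c, hc.swap.mono ?_⟩
  rintro a (ha | rfl | ha)
  exacts [Or.inl ha, Or.inr (Or.inl rfl), Or.inr (Or.inr ha)]

lemma piso_union {ι : Type*} [LinearOrder ι] {Φ : Set (C × D)} (hΦ : PIso Φ) (T : Set ι)
    (S : ι → Set (C × D)) (hm : ∀ i ∈ T, ∀ j ∈ T, i < j → S i ⊆ S j)
    (h : ∀ i ∈ T, PIso (Φ ∪ S i)) : PIso (Φ ∪ ⋃ i ∈ T, S i) := by
  intro a ha b hb
  simp only [Set.mem_union, Set.mem_iUnion] at ha hb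
  rcases ha with ha | ⟨i, hi, ha⟩ <;> rcases hb with hb | ⟨j, hj, hb⟩
  · exact hΦ a ha b hb
  · exact h j hj a (Or.inl ha) b (Or.inr hb)
  · exact h i hi a (Or.inr ha) b (Or.inl hb)
  · rcases lt_trichotomy i j with hij | rfl | hij
    · exact h j hj a (Or.inr (hm i hi j hj hij ha)) b (Or.inr hb)
    · exact h i hi a (Or.inr ha) b (Or.inr hb)
    · exact h i hi a (Or.inr ha) b (Or.inr (hm j hj i hi hij hb))

lemma ctble_ext (Φ : Set (C × D)) (c0 : C)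
    (p1 : ∀ S : Set (C × D), S.Countable → PIso (Φ ∪ S) → ∀ p, ∃ d, PIso (Φ ∪ insert (p, d) S))
    (p2 : ∀ S : Set (C × D), S.Countable → PIso (Φ ∪ S) → ∀ q, ∃ c, PIso (Φ ∪ insert (c, q) S))
    (S : Set (C × D)) (hS : S.Countable) (hp : PIso (Φ ∪ S)) (X : Set C) (Y : Set D)
    (hX : X.Countable) (hY : Y.Countable) :
    ∃ S', S ⊆ S' ∧ S'.Countable ∧ PIso (Φ ∪ S') ∧ X ⊆ Prod.fst '' S' ∧ Y ⊆ Prod.snd '' S' := by
  obtain ⟨g, hg⟩ := (((hX.image (Sum.inl : C → C ⊕ D)).union (hY.image Sum.inr)).insert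
    (Sum.inl c0)).exists_eq_range (Set.insert_nonempty _ _)
  have step : ∀ (T : {T : Set (C × D) // T.Countable ∧ PIso (Φ ∪ T)}) (z : C ⊕ D),
      ∃ T' : {T : Set (C × D) // T.Countable ∧ PIso (Φ ∪ T)}, T.1 ⊆ T'.1 ∧
        (∀ p, z = Sum.inl p → p ∈ Prod.fst '' T'.1) ∧ ∀ q, z = Sum.inr q → q ∈ Prod.snd '' T'.1 := by
    rintro ⟨T, hT, hT'⟩ (p | q)
    · obtain ⟨d, hd⟩ := p1 T hT hT' p
      refine ⟨⟨_, hT.insert _, hd⟩, Set.subset_insert _ _, ?_, by simp⟩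
      rintro p' ⟨⟩
      exact ⟨(p, d), Set.mem_insert _ _, rfl⟩
    · obtain ⟨c, hc⟩ := p2 T hT hT' q
      refine ⟨⟨_, hT.insert _, hc⟩, Set.subset_insert _ _, by simp, ?_⟩
      rintro p' ⟨⟩
      exact ⟨(c, q), Set.mem_insert _ _, rfl⟩
  choose f hf1 hf2 hf3 using step
  let s : ℕ → {T : Set (C × D) // T.Countable ∧ PIso (Φ ∪ T)} := fun n =>
    Nat.rec ⟨S, hS, hp⟩ (fun k T => f T (g k)) n
  have hm : Monotone fun n => (s n).1 := monotone_nat_of_le_succ fun n => hf1 (s n) (g n)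
  have hsub : ∀ n, (s n).1 ⊆ ⋃ i ∈ (Set.univ : Set ℕ), (s i).1 := fun n =>
    Set.subset_biUnion_of_mem (u := fun i => (s i).1) (Set.mem_univ n)
  refine ⟨⋃ i ∈ (Set.univ : Set ℕ), (s i).1, hsub 0,
    Set.countable_univ.biUnion fun i _ => (s i).2.1,
    piso_union (hp.mono Set.subset_union_left) _ _ (fun i _ j _ h => hm h.le)
      (fun i _ => (s i).2.2), ?_, ?_⟩
  · intro p hp
    obtain ⟨n, hn⟩ : Sum.inl p ∈ Set.range g := hg ▸ Or.inr (Or.inl ⟨p, hp, rfl⟩)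
    exact Set.image_mono (hsub (n + 1)) (hf2 (s n) (g n) p hn)
  · intro p hp
    obtain ⟨n, hn⟩ : Sum.inr p ∈ Set.range g := hg ▸ Or.inr (Or.inr ⟨p, hp, rfl⟩)
    exact Set.image_mono (hsub (n + 1)) (hf3 (s n) (g n) p hn)

def Closed {C : Type*} (e : C → Om → Set C) (A : Set C) : Prop := ∀ q ∈ A, ∀ η, e q η ⊆ A

lemma closed_ext (Φ : Set (C × D)) (hΦ : PIso Φ)
    (p1 : ∀ S : Set (C × D), S.Countable → PIso (Φ ∪ S) → ∀ p, ∃ d, PIso (Φ ∪ insert (p, d) S))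
    (p2 : ∀ S : Set (C × D), S.Countable → PIso (Φ ∪ S) → ∀ q, ∃ c, PIso (Φ ∪ insert (c, q) S))
    (eC : C → Om → Set C) (eD : D → Om → Set D) (hC : ∀ q η, (eC q η).Countable)
    (hD : ∀ q η, (eD q η).Countable) (X : Set C) (Y : Set D) (hX : X.Countable)
    (hY : Y.Countable) (c0 : C) :
    ∃ S, PIso (Φ ∪ S) ∧ Closed eC (Prod.fst '' S) ∧ Closed eD (Prod.snd '' S) ∧
      X ⊆ Prod.fst '' S ∧ Y ⊆ Prod.snd '' S := by
  have step : ∀ (S : Set (C × D)) (ξ : Om), ∃ S', S.Countable → PIso (Φ ∪ S) →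
      S ⊆ S' ∧ S'.Countable ∧ PIso (Φ ∪ S') ∧
        (X ∪ ⋃ a ∈ S, ⋃ η ∈ Set.Iio ξ, eC a.1 η) ⊆ Prod.fst '' S' ∧
        (Y ∪ ⋃ a ∈ S, ⋃ η ∈ Set.Iio ξ, eD a.2 η) ⊆ Prod.snd '' S' := by
    intro S ξ
    by_cases h : S.Countable ∧ PIso (Φ ∪ S)
    · obtain ⟨S', h'⟩ := ctble_ext Φ c0 p1 p2 S h.1 h.2 _ _
        (hX.union (h.1.biUnion fun a _ => (ctble_Iio ξ).biUnion fun η _ => hC a.1 η))
        (hY.union (h.1.biUnion fun a _ => (ctble_Iio ξ).biUnion fun η _ => hD a.2 η))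
      exact ⟨S', fun _ _ => h'⟩
    · exact ⟨S, fun h1 h2 => absurd ⟨h1, h2⟩ h⟩
  choose st hst using step
  let Ψ : Om → Set (C × D) := (wellFounded_lt (α := Om)).fix
    fun ξ r => st (⋃ ζ : Set.Iio ξ, r ζ.1 ζ.2) ξ
  have hΨ : ∀ ξ, Ψ ξ = st (⋃ ζ ∈ Set.Iio ξ, Ψ ζ) ξ := by
    intro ξ
    have : Ψ ξ = st (⋃ ζ : Set.Iio ξ, Ψ ζ.1) ξ := WellFounded.fix_eq _ _ _
    rw [this, Set.biUnion_eq_iUnion]
  have hsub : ∀ ζ ξ, ζ < ξ → Ψ ζ ⊆ ⋃ ζ ∈ Set.Iio ξ, Ψ ζ := fun ζ ξ h =>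
    Set.subset_biUnion_of_mem (u := Ψ) h
  have key : ∀ ξ, (⋃ ζ ∈ Set.Iio ξ, Ψ ζ).Countable ∧ PIso (Φ ∪ ⋃ ζ ∈ Set.Iio ξ, Ψ ζ) := by
    intro ξ
    induction ξ using (wellFounded_lt (α := Om)).induction with
    | _ ξ ih =>
    have h1 := fun ζ (h : ζ < ξ) => hst _ ζ (ih ζ h).1 (ih ζ h).2
    refine ⟨(ctble_Iio ξ).biUnion fun ζ h => by rw [hΨ]; exact (h1 ζ h).2.1,
      piso_union hΦ _ _ (fun i _ j hj hij => ?_) (fun i hi => by rw [hΨ]; exact (h1 i hi).2.2.1)⟩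
    rw [hΨ j]
    exact (hsub i j hij).trans (h1 j hj).1
  have h1 := fun ξ => hst _ ξ (key ξ).1 (key ξ).2
  simp only [← hΨ] at h1
  have hall : ∀ ξ, Ψ ξ ⊆ ⋃ ζ ∈ (Set.univ : Set Om), Ψ ζ := fun ξ =>
    Set.subset_biUnion_of_mem (u := Ψ) (Set.mem_univ ξ)
  refine ⟨⋃ ζ ∈ (Set.univ : Set Om), Ψ ζ, piso_union hΦ _ _
    (fun i _ j _ hij => (hsub i j hij).trans (h1 j).1) (fun i _ => (h1 i).2.2.1), ?_, ?_, ?_, ?_⟩
  · rintro _ ⟨a, ha, rfl⟩ η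
    simp only [Set.mem_iUnion] at ha
    obtain ⟨ζ, -, ha⟩ := ha
    obtain ⟨ξ, hξ⟩ := exists_gt (max ζ η)
    refine Set.Subset.trans ?_ ((h1 ξ).2.2.2.1.trans (Set.image_mono (hall ξ)))
    intro x hx
    refine Or.inr ?_
    simp only [Set.mem_iUnion]
    exact ⟨a, ⟨ζ, (le_max_left _ _).trans_lt hξ, ha⟩, η, (le_max_right _ _).trans_lt hξ, hx⟩
  · rintro _ ⟨a, ha, rfl⟩ η
    simp only [Set.mem_iUnion] at ha
    obtain ⟨ζ, -, ha⟩ := ha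
    obtain ⟨ξ, hξ⟩ := exists_gt (max ζ η)
    refine Set.Subset.trans ?_ ((h1 ξ).2.2.2.2.trans (Set.image_mono (hall ξ)))
    intro x hx
    refine Or.inr ?_
    simp only [Set.mem_iUnion]
    exact ⟨a, ⟨ζ, (le_max_left _ _).trans_lt hξ, ha⟩, η, (le_max_right _ _).trans_lt hξ, hx⟩
  · obtain ⟨ξ⟩ : Nonempty Om := inferInstance
    exact Set.subset_union_left.trans ((h1 ξ).2.2.2.1.trans (Set.image_mono (hall ξ)))
  · obtain ⟨ξ⟩ : Nonempty Om := inferInstance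
    exact Set.subset_union_left.trans ((h1 ξ).2.2.2.2.trans (Set.image_mono (hall ξ)))

/-- the data making the back and forth argument work -/
structure Nice (C : Type*) [LinearOrder C] : Prop where
  sat : Sat C
  ends : ∃ c0 c1 : C, c0 < c1 ∧ (∀ c, c0 ≤ c) ∧ ∀ c, c ≤ c1
  clos : ∃ e : C → Om → Set C, (∀ q η, (e q η).Countable) ∧ ∀ A, Closed e A → EmbL A ∧ EmbU A

lemma Closed.union {C : Type*} {e : C → Om → Set C} {A B : Set C} (h : Closed e A)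
    (h' : Closed e B) : Closed e (A ∪ B) := by
  rintro q (hq | hq) η
  exacts [(h q hq η).trans Set.subset_union_left, (h' q hq η).trans Set.subset_union_right]

lemma EmbL.union {A : Set C} (h : EmbL A) (W : Set C) (hW : W.Countable) : EmbL (W ∪ A) := by
  intro p hp
  obtain ⟨L, h1, h2, h3, h4⟩ := h p fun h => hp (Or.inr h)
  refine ⟨{w | w ∈ W ∧ w < p} ∪ L, Set.union_subset_union (fun w h => h.1) h1,
    (hW.mono fun w h => h.1).union h2, ?_, ?_⟩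
  · rintro l (hl | hl)
    exacts [hl.2, h3 l hl]
  · rintro q (hq | hq) hqp
    · exact ⟨q, Or.inl ⟨hq, hqp⟩, le_rfl⟩
    · obtain ⟨l, hl, hql⟩ := h4 q hq hqp
      exact ⟨l, Or.inr hl, hql⟩

lemma EmbU.union {A : Set C} (h : EmbU A) (W : Set C) (hW : W.Countable) : EmbU (W ∪ A) :=
  EmbL.union (C := Cᵒᵈ) h W hW

theorem iso_of_nice (hC : Nice C) (hD : Nice D) : Nonempty (C ≃o D) := by
  obtain ⟨c0, c1, hc, hc0, hc1⟩ := hC.ends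
  obtain ⟨d0, d1, hd, hd0, hd1⟩ := hD.ends
  obtain ⟨eC, hCc, hCe⟩ := hC.clos
  obtain ⟨eD, hDc, hDe⟩ := hD.clos
  let B : Set (C × D) := {(c0, d0), (c1, d1)}
  have hB : PIso B := by
    rintro a (rfl | rfl) b (rfl | rfl)
    · simp
    · exact iff_of_true hc hd
    · exact iff_of_false hc.not_gt hd.not_gt
    · simp
  have hBc : B.Countable := (Set.toFinite _).countable
  obtain ⟨S, hS⟩ : ∃ S, Maximal (fun S : Set (C × D) => PIso (B ∪ S) ∧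
      Closed eC (Prod.fst '' S) ∧ Closed eD (Prod.snd '' S)) S := by
    apply zorn_subset
    intro c hc' hch
    refine ⟨⋃₀ c, ⟨?_, ?_, ?_⟩, fun s hs => Set.subset_sUnion_of_mem hs⟩
    · rintro a (ha | ⟨s, hs, ha⟩) b (hb | ⟨t, ht, hb⟩)
      · exact hB a ha b hb
      · exact (hc' ht).1 a (Or.inl ha) b (Or.inr hb)
      · exact (hc' hs).1 a (Or.inr ha) b (Or.inl hb)
      · rcases hch.total hs ht with h | h
        · exact (hc' ht).1 a (Or.inr (h ha)) b (Or.inr hb)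
        · exact (hc' hs).1 a (Or.inr ha) b (Or.inr (h hb))
    · rintro _ ⟨a, ⟨s, hs, ha⟩, rfl⟩ η
      exact ((hc' hs).2.1 _ ⟨a, ha, rfl⟩ η).trans (Set.image_mono (Set.subset_sUnion_of_mem hs))
    · rintro _ ⟨a, ⟨s, hs, ha⟩, rfl⟩ η
      exact ((hc' hs).2.2 _ ⟨a, ha, rfl⟩ η).trans (Set.image_mono (Set.subset_sUnion_of_mem hs))
  obtain ⟨h1, h2, h3⟩ := hS.prop
  have m0 : (c0, d0) ∈ B ∪ S := Or.inl (Or.inl rfl)
  have m1 : (c1, d1) ∈ B ∪ S := Or.inl (Or.inr rfl)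
  have key : ∀ p q, p ∈ Prod.fst '' S ∧ q ∈ Prod.snd '' S := by
    intro p q
    obtain ⟨S', g1, g2, g3, g4, g5⟩ := closed_ext (B ∪ S) h1
      (fun T hT hp p => one_point hD.sat _ T hT hp
        (by rw [Set.image_union]; exact (hCe _ h2).1.union _ (hBc.image _))
        (by rw [Set.image_union]; exact (hCe _ h2).2.union _ (hBc.image _)) m0 m1 hc0 hc1 p)
      (fun T hT hp p => one_point' hC.sat _ T hT hp
        (by rw [Set.image_union]; exact (hDe _ h3).1.union _ (hBc.image _))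
        (by rw [Set.image_union]; exact (hDe _ h3).2.union _ (hBc.image _)) m0 m1 hd0 hd1 p)
      eC eD hCc hDc {p} {q} (Set.countable_singleton _) (Set.countable_singleton _) c0
    have hle : S ∪ S' ⊆ S := hS.le_of_ge (y := S ∪ S') ⟨by rwa [← Set.union_assoc],
      by rw [Set.image_union]; exact h2.union g2, by rw [Set.image_union]; exact h3.union g3⟩
      Set.subset_union_left
    have hle' : S' ⊆ S := Set.subset_union_right.trans hle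
    exact ⟨Set.image_mono hle' (g4 rfl), Set.image_mono hle' (g5 rfl)⟩
  have : ∀ p, ∃ d, (p, d) ∈ S := fun p => by
    obtain ⟨⟨p', d⟩, ha, rfl⟩ := (key p d0).1
    exact ⟨d, ha⟩
  choose f hf using this
  have h1' := h1.mono Set.subset_union_right
  refine ⟨StrictMono.orderIsoOfSurjective f (fun a b h => (h1' _ (hf a) _ (hf b)).1 h) ?_⟩
  intro q
  obtain ⟨⟨p, q'⟩, ha, rfl⟩ := (key c0 q).2
  exact ⟨p, congrArg Prod.snd (h1'.injOn (hf p) ha rfl)⟩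

end BF

end Pool.Agent.H945Z.Had
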