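import Pool.Agent.H945Z.Had.Defs
import Pool.Agent.H945Z.Had.Order

namespace Pool.Agent.H945Z.Had

open Pool.Agent.Helper292.ForceCH Cardinal

/-! ### Cardinal bounds -/

noncomputable def mu : Cardinal.{0} := #(Set Om)

lemma mu_eq : mu = 2 ^ #Om := mk_set

lemma om_inf : ℵ₀ ≤ #Om := by
  rw [mk_toType, card_ord]
  exact aleph0_le_aleph 1

lemma om_le : #Om ≤ mu := by rw [mu_eq]; exact (cantor _).le

lemma mu_inf : ℵ₀ ≤ mu := om_inf.trans om_le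

lemma mu_pow : mu ^ #Om = mu := by
  rw [mu_eq, ← power_mul, mul_eq_self om_inf]

lemma mu_pow0 : mu ^ ℵ₀ ≤ mu := by
  conv_rhs => rw [← mu_pow]
  exact power_le_power_left (aleph0_pos.trans_le mu_inf).ne' om_inf

lemma cond_le : #Cond ≤ mu := by
  have : #Cond = #Om * mu ^ #Om := by
    show #(Om × (Om → Set Om)) = _
    simp [mu]
  rw [this, mu_pow]
  exact (mul_le_mul_left om_le _).trans (mul_eq_self mu_inf).le

lemma small_iUnion {ι X : Type} (hι : #ι ≤ mu) (f : ι → Set X) (hf : ∀ i, #(f i) ≤ mu) :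
    #(⋃ i, f i) ≤ mu := by
  refine (mk_iUnion_le_sum_mk).trans ((sum_le_sum _ (fun _ => mu) hf).trans ?_)
  rw [sum_const']
  exact (mul_le_mul_left hι _).trans (mul_eq_self mu_inf).le

lemma small_ctble {X : Type} {S : Set X} (h : S.Countable) : #S ≤ mu :=
  (mk_le_aleph0_iff.2 h.to_subtype).trans mu_inf

lemma small_prod {X Y : Type} {S : Set X} {T : Set Y} (h : #S ≤ mu) (h' : #T ≤ mu) :
    #(S ×ˢ T : Set (X × Y)) ≤ mu := by
  rw [mk_setProd]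
  exact (mul_le_mul' h h').trans (mul_eq_self mu_inf).le

lemma small_sets {X : Type} {S : Set X} (h : #S ≤ mu) :
    #{A : Set X | A ⊆ S ∧ A.Countable} ≤ mu := by
  have h1 := mk_bounded_subset_le S ℵ₀
  have h2 : #{A : Set X | A ⊆ S ∧ A.Countable} ≤ #{t : Set X // t ⊆ S ∧ #t ≤ ℵ₀} :=
    mk_le_of_injective (f := fun A => ⟨A.1, A.2.1, mk_le_aleph0_iff.2 A.2.2.to_subtype⟩)
      fun A B e => Subtype.ext (Subtype.mk.inj e)
  exact h2.trans (h1.trans ((power_le_power_right (max_le h mu_inf)).trans mu_pow0))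

abbrev KK : Type := (Order.succ mu).ord.ToType

lemma small_Iic (a : KK) : #(Set.Iic a) ≤ mu := by
  have h : #(Set.Iio a) ≤ mu := Order.lt_succ_iff.1 (mk_Iio_toType_ord_lt a)
  rw [← Set.Iio_insert]
  exact mk_insert_le.trans ((add_le_add h (one_le_aleph0.trans mu_inf)).trans
    (add_eq_self mu_inf).le)

lemma exists_notMem {S : Set KK} (h : #S ≤ mu) : ∃ a, a ∉ S := by
  by_contra hc
  push Not at hc
  have : S = Set.univ := Set.eq_univ_of_forall hc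
  rw [this, mk_univ, mk_toType, card_ord] at h
  exact absurd h (not_le.2 (Order.lt_succ mu))

lemma exists_boundK {S : Set KK} (h : S.Countable) : ∃ a, ∀ b ∈ S, b < a := by
  obtain ⟨a, ha⟩ := exists_notMem (small_iUnion (small_ctble h) (fun b : S => Set.Iic b.1)
    fun b => small_Iic _)
  refine ⟨a, fun b hb => not_le.1 fun e => ha (Set.mem_iUnion.2 ⟨⟨b, hb⟩, e⟩)⟩

/-! ### Cohen forcing -/

def Fn : Type := {s : Set (KK × ℕ × Bool) // s.Finite ∧ ∀ a n b, (a, n, b) ∈ s → (a, n, !b) ∉ s}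

instance : Preorder Fn where
  le t s := s.1 ⊆ t.1
  le_refl _ := le_rfl
  le_trans _ _ _ h h' := h'.trans h

lemma Fn.le_def {t s : Fn} : t ≤ s ↔ s.1 ⊆ t.1 := Iff.rfl

instance : Nonempty Fn := ⟨⟨∅, Set.finite_empty, fun _ _ _ h => h.elim⟩⟩

def Fn.res (u : Fn) (B : Set KK) : Fn :=
  ⟨{i | i ∈ u.1 ∧ i.1 ∈ B}, u.2.1.subset fun _ h => h.1, fun a n b h h' => u.2.2 a n b h.1 h'.1⟩

lemma Fn.le_res (u : Fn) (B : Set KK) : u ≤ u.res B := fun _ h => h.1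

def Fn.join (s t : Fn) (h : ∀ a n b, (a, n, b) ∈ s.1 → (a, n, !b) ∉ t.1) : Fn :=
  ⟨s.1 ∪ t.1, s.2.1.union t.2.1, by
    rintro a n b (h1 | h1) (h2 | h2)
    · exact s.2.2 a n b h1 h2
    · exact h a n b h1 h2
    · exact h a n (!b) h2 (by simpa using h1)
    · exact t.2.2 a n b h1 h2⟩

lemma Fn.join_le_left (s t : Fn) (h) : s.join t h ≤ s := Set.subset_union_left
lemma Fn.join_le_right (s t : Fn) (h) : s.join t h ≤ t := Set.subset_union_right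

lemma ctble_supp {B : Set KK} (h : B.Countable) : {t : Fn | ∀ i ∈ t.1, i.1 ∈ B}.Countable := by
  have h1 : (B ×ˢ (Set.univ : Set (ℕ × Bool))).Countable := h.prod Set.countable_univ
  refine ((Set.countable_setOf_finite_subset h1).preimage
    (f := fun t : Fn => t.1) Subtype.val_injective).mono ?_
  intro t ht
  exact ⟨t.2.1, fun i hi => ⟨ht i hi, trivial⟩⟩

lemma small_supp {B : Set KK} (h : #B ≤ mu) : #{t : Fn | ∀ i ∈ t.1, i.1 ∈ B} ≤ mu := by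
  have h1 := small_sets (small_prod h (small_ctble (Set.countable_univ (α := ℕ × Bool))))
  refine le_trans (mk_le_of_injective (f := fun t => ⟨t.1.1, fun i hi => ⟨t.2 i hi, trivial⟩,
    t.1.2.1.countable⟩) fun s t e => ?_) h1
  have := congrArg Subtype.val e
  exact Subtype.ext (Subtype.ext this)

lemma meets_of_le {P : Type*} [Preorder P] {N : Set P} {u r : P} (hr : r ∈ N) (h : u ≤ r) :
    u ∈ meets N := fun q hq => ⟨q, le_rfl, r, hr, hq.trans h⟩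

lemma res_meets {N : Set Fn} {B : Set KK} (hN : ∀ r ∈ N, ∀ i ∈ r.1, i.1 ∈ B) {v w : Fn}
    (hv : v ∈ meets N) (h : ∀ i ∈ v.1, i.1 ∈ B → i ∈ w.1) : w ∈ meets N := by
  intro w' hw'
  obtain ⟨r', h1, r, h2, h3⟩ := hv (v.join (w'.res B) fun a n b h1 h2 =>
    w'.2.2 a n b (hw' (h _ h1 h2.2)) h2.1) (Fn.join_le_left _ _ _)
  have hc : ∀ a n b, (a, n, b) ∈ w'.1 → (a, n, !b) ∉ r.1 := fun a n b h4 h5 =>
    r'.2.2 a n b (h1 (Or.inr ⟨h4, hN r h2 (a, n, !b) h5⟩)) (h3 h5)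
  exact ⟨w'.join r hc, Fn.join_le_left _ _ _, r, h2, Fn.join_le_right _ _ _⟩

/-! ### The product -/

abbrev PP : Type := Cond × Fn

def suppS (A : Set Fn) : Set KK := {b | ∃ s ∈ A, ∃ i ∈ s.1, i.1 = b}

lemma suppS_ctble {A : Set Fn} (h : A.Countable) : (suppS A).Countable := by
  have : suppS A = ⋃ s ∈ A, Prod.fst '' s.1 := by
    ext b
    simp only [suppS, Set.mem_ofPred_eq, Set.mem_iUnion, Set.mem_image, exists_prop]
  rw [this]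
  exact h.biUnion fun s _ => (s.2.1.image _).countable

lemma easton_step {D : Set PP} (hD : Down D) (hd : ∀ r, ∃ r' ≤ r, r' ∈ D) (p : Cond)
    {B : Set KK} (hB : B.Countable) : ∃ p' ≤ p, ∃ A : Set Fn, A.Countable ∧
      (∀ s ∈ A, (p', s) ∈ D) ∧ ∀ t : Fn, (∀ i ∈ t.1, i.1 ∈ B) → ∃ s ∈ A, s ≤ t := by
  obtain ⟨f, hf⟩ := (ctble_supp hB).exists_eq_range
    ⟨⟨∅, Set.finite_empty, fun _ _ _ h => h.elim⟩, fun _ h => h.elim⟩
  obtain ⟨p', h1, h2⟩ := meet_countable sigmaClosed (fun n => {q | ∃ s ≤ f n, (q, s) ∈ D})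
    (fun n q ⟨s, h1, h2⟩ q' hq' => ⟨s, h1, hD _ h2 _ ⟨hq', le_rfl⟩⟩) p (fun n q _ => by
      obtain ⟨r, h1, h2⟩ := hd (q, f n)
      exact ⟨r.1, h1.1, r.2, h1.2, h2⟩)
  choose g hg hg' using h2
  refine ⟨p', h1, Set.range g, Set.countable_range g, ?_, fun t ht => ?_⟩
  · rintro _ ⟨n, rfl⟩; exact hg' n
  · have : t ∈ Set.range f := hf ▸ ht
    obtain ⟨n, rfl⟩ := this
    exact ⟨g n, ⟨n, rfl⟩, hg n⟩

lemma easton {D : Set PP} (hD : Down D) (hd : ∀ r, ∃ r' ≤ r, r' ∈ D) (p : Cond) :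
    ∃ p' ≤ p, ∃ A : Set Fn, A.Countable ∧ (∀ s ∈ A, (p', s) ∈ D) ∧
      ∀ t : Fn, ∃ s ∈ A, ∃ w, w ≤ s ∧ w ≤ t := by
  let St := {X : Cond × Set Fn // X.2.Countable ∧ ∀ s ∈ X.2, (X.1, s) ∈ D}
  have step : ∀ X : St, ∃ Y : St, Y.1.1 ≤ X.1.1 ∧ X.1.2 ⊆ Y.1.2 ∧
      ∀ t : Fn, (∀ i ∈ t.1, i.1 ∈ suppS X.1.2) → ∃ s ∈ Y.1.2, s ≤ t := by
    rintro ⟨⟨q, A⟩, h1, h2⟩
    obtain ⟨q', a, A', b, c, d⟩ := easton_step hD hd q (suppS_ctble h1)
    refine ⟨⟨(q', A ∪ A'), h1.union b, ?_⟩, a, Set.subset_union_left, fun t ht => ?_⟩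
    · rintro s (hs | hs)
      exacts [hD _ (h2 s hs) _ ⟨a, le_rfl⟩, c s hs]
    · obtain ⟨s, hs, e⟩ := d t ht
      exact ⟨s, Or.inr hs, e⟩
  choose st h1 h2 h3 using step
  let X : ℕ → St := fun n => Nat.rec ⟨(p, ∅), Set.countable_empty, fun _ h => h.elim⟩
    (fun _ Y => st Y) n
  obtain ⟨q, hq⟩ := sigmaClosed (fun n => (X n).1.1) fun n => h1 (X n)
  have hm : Monotone fun n => (X n).1.2 := monotone_nat_of_le_succ fun n => h2 (X n)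
  refine ⟨q, hq 0, ⋃ n, (X n).1.2, Set.countable_iUnion fun n => (X n).2.1, ?_, fun t => ?_⟩
  · intro s hs
    obtain ⟨n, hn⟩ := Set.mem_iUnion.1 hs
    exact hD _ ((X n).2.2 s hn) _ ⟨hq n, le_rfl⟩
  · let t' := t.res (suppS (⋃ n, (X n).1.2))
    have h4 : ∀ i ∈ t'.1, ∃ n, i.1 ∈ suppS (X n).1.2 := by
      rintro i ⟨-, s, hs, hi⟩
      obtain ⟨n, hn⟩ := Set.mem_iUnion.1 hs
      exact ⟨n, s, hn, hi⟩
    choose! g hg using h4
    obtain ⟨n, hn⟩ := (t'.2.1.image g).bddAbove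
    obtain ⟨s, hs, e⟩ := h3 (X n) t' fun i hi => by
      obtain ⟨s, hs, e⟩ := hg i hi
      exact ⟨s, hm (hn ⟨i, hi, rfl⟩) hs, e⟩
    have hs' : s ∈ ⋃ n, (X n).1.2 := Set.mem_iUnion.2 ⟨n + 1, hs⟩
    have hc : ∀ a n b, (a, n, b) ∈ s.1 → (a, n, !b) ∉ t.1 := fun a n b h5 h6 =>
      s.2.2 a n b h5 (e ⟨h6, s, hs', _, h5, rfl⟩)
    exact ⟨s, hs', s.join t hc, Fn.join_le_left _ _ _, Fn.join_le_right _ _ _⟩

lemma easton' {D : ℕ → Set PP} (hD : ∀ n, Down (D n)) (hd : ∀ n r, ∃ r' ≤ r, r' ∈ D n)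
    (p : Cond) : ∃ p' ≤ p, ∃ A : ℕ → Set Fn, ∀ n, (A n).Countable ∧ (∀ s ∈ A n, (p', s) ∈ D n) ∧
      ∀ t : Fn, ∃ s ∈ A n, ∃ w, w ≤ s ∧ w ≤ t := by
  obtain ⟨p', h1, h2⟩ := meet_countable sigmaClosed (fun n => {q | ∃ A : Set Fn, A.Countable ∧
      (∀ s ∈ A, (q, s) ∈ D n) ∧ ∀ t : Fn, ∃ s ∈ A, ∃ w, w ≤ s ∧ w ≤ t})
    (fun n q ⟨A, a, b, c⟩ q' hq' => ⟨A, a, fun s hs => hD n _ (b s hs) _ ⟨hq', le_rfl⟩, c⟩) p
    (fun n q _ => easton (hD n) (hd n) q)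
  choose A hA using h2
  exact ⟨p', h1, A, hA⟩

theorem omega_pres (p : PP) : p ∈ OmegaOnePreserved PP := by
  intro q _ hq
  obtain ⟨r, _, R, hR, hR'⟩ := mem_fex.1 hq q le_rfl
  obtain ⟨p', h1, A, hA⟩ := easton'
    (D := fun n => {v | (∃ a, v ∈ meets (R n a)) ∨ ∀ v' ≤ v, ¬ v' ≤ r})
    (by
      rintro n v (⟨a, ha⟩ | hv) v' hv'
      · exact Or.inl ⟨a, down_meets _ _ ha _ hv'⟩
      · exact Or.inr fun w hw => hv w (hw.trans hv'))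
    (fun n v => by
      by_cases h : ∀ v' ≤ v, ¬ v' ≤ r
      · exact ⟨v, le_rfl, Or.inr h⟩
      · push Not at h
        obtain ⟨v', h1, h2⟩ := h
        obtain ⟨w, hw, a, ha⟩ := mem_fex.1 (hR.1 n) v' h2
        exact ⟨w, hw.trans h1, Or.inl ⟨a, ha⟩⟩) r.1
  have h2 : ∀ n s, ∃ a, (∃ a, (p', s) ∈ meets (R n a)) → (p', s) ∈ meets (R n a) := by
    intro n s
    by_cases h : ∃ a, (p', s) ∈ meets (R n a)
    · obtain ⟨a, ha⟩ := h
      exact ⟨a, fun _ => ha⟩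
    · exact ⟨Classical.arbitrary Om, fun h' => absurd h' h⟩
  choose g hg using h2
  have h3 : (insert (Classical.arbitrary Om) (⋃ n, g n '' A n)).Countable :=
    (Set.countable_iUnion fun n => (hA n).1.image _).insert _
  obtain ⟨f, hf⟩ := h3.exists_eq_range (Set.insert_nonempty _ _)
  obtain ⟨b, hb⟩ := exists_bound f
  obtain ⟨v, hv, n, hn⟩ := mem_fex.1 (hR' b) (p', r.2) ⟨h1, le_rfl⟩
  obtain ⟨s, hs, w, hw1, hw2⟩ := (hA n).2.2 v.2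
  have e1 : (v.1, w) ≤ v := ⟨le_rfl, hw2⟩
  have e2 : (v.1, w) ≤ (p', s) := ⟨hv.1, hw1⟩
  have e3 : (v.1, w) ≤ r := e1.trans (hv.trans ⟨h1, le_rfl⟩)
  have h4 := hg n s (((hA n).2.1 s hs).resolve_right fun h => h _ e2 e3)
  obtain ⟨_, _, h5⟩ := mem_fimp.1 (hR.2 n (g n s) b) _ e3
    ⟨down_meets _ _ h4 _ e2, down_meets _ _ hn _ e1⟩
  have h6 : g n s ∈ Set.range f := hf ▸ Or.inr (Set.mem_iUnion.2 ⟨n, s, hs, rfl⟩)
  obtain ⟨k, hk⟩ := h6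
  exact (hb k).ne (hk.trans h5)

/-! ### Nice names for reals -/

def JJ : Type := {x : Set (ℕ × Fn) // x.Countable}

def JJ.at (x : JJ) (n : ℕ) : Set Fn := {s | (n, s) ∈ x.1}

def EE (x : JJ) (n : ℕ) : Set PP := {r | r.2 ∈ x.at n}

lemma meets_EE {x : JJ} {n : ℕ} {r : PP} : r ∈ meets (EE x n) ↔ r.2 ∈ meets (x.at n) := by
  constructor
  · intro h t ht
    obtain ⟨v, h1, w, h2, h3⟩ := h (r.1, t) ⟨le_rfl, ht⟩
    exact ⟨v.2, h1.2, w.2, h2, h3.2⟩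
  · intro h v hv
    obtain ⟨t, h1, s, h2, h3⟩ := h v.2 hv.2
    exact ⟨(v.1, t), ⟨le_rfl, h1⟩, (v.1, s), h2, ⟨le_rfl, h3⟩⟩

lemma nice_name (a : ℕ → Set PP) (p : Cond) : ∃ p' ≤ p, ∃ x : JJ,
    ∀ s n, (p', s) ∈ fiff (meets (a n)) (meets (EE x n)) := by
  obtain ⟨p', h1, A, hA⟩ := easton'
    (D := fun n => {v | v ∈ meets (a n) ∨ v ∈ fnot (meets (a n))})
    (by
      rintro n v (hv | hv) v' hv'
      · exact Or.inl (down_meets _ _ hv _ hv')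
      · exact Or.inr (down_fnot _ _ hv _ hv'))
    (fun n v => by
      by_cases h : v ∈ fnot (meets (a n))
      · exact ⟨v, le_rfl, Or.inr h⟩
      · simp only [fnot, Set.mem_ofPred_eq, not_forall, not_not] at h
        obtain ⟨v', h1, h2⟩ := h
        exact ⟨v', h1, Or.inl h2⟩) p
  have hc : {e : ℕ × Fn | e.2 ∈ A e.1 ∧ (p', e.2) ∈ meets (a e.1)}.Countable := by
    refine (Set.countable_iUnion fun n => ((hA n).1.image (Prod.mk n))).mono ?_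
    rintro ⟨n, s⟩ h
    exact Set.mem_iUnion.2 ⟨n, s, h.1, rfl⟩
  refine ⟨p', h1, ⟨_, hc⟩, fun s0 n => ⟨mem_fimp.2 fun v hv h => ?_, mem_fimp.2 fun v hv h => ?_⟩⟩
  · obtain ⟨s, hs, w, hw1, hw2⟩ := (hA n).2.2 v.2
    have e1 : (v.1, w) ≤ v := ⟨le_rfl, hw2⟩
    have e2 : (v.1, w) ≤ (p', s) := ⟨hv.1, hw1⟩
    have h4 := ((hA n).2.1 s hs).resolve_right fun h' => h' _ e2 (down_meets _ _ h _ e1)
    exact ⟨(v.1, w), e1, meets_EE.2 (meets_of_le (r := s) ⟨hs, h4⟩ hw1)⟩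
  · obtain ⟨w, h2, u, h3, h4⟩ := h v le_rfl
    exact ⟨w, h2, down_meets _ _ h3.2 _ ⟨h2.1.trans hv.1, h4.2⟩⟩

def JJ.supp (x : JJ) : Set KK := suppS (Prod.snd '' x.1)

lemma JJ.supp_ctble (x : JJ) : x.supp.Countable := suppS_ctble (x.2.image _)

lemma JJ.mem_supp {x : JJ} {n : ℕ} {r : Fn} (h : r ∈ x.at n) {i : KK × ℕ × Bool} (hi : i ∈ r.1) :
    i.1 ∈ x.supp := ⟨r, ⟨(n, r), h, rfl⟩, i, hi, rfl⟩

theorem not_ch (p : PP) : p ∈ fnot (CHHolds PP) := by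
  intro q _ hq
  obtain ⟨r, _, E, hE⟩ := mem_fex.1 hq q le_rfl
  choose p' hp' x hx using fun a : Om => nice_name (E a)
  obtain ⟨al, hal⟩ := exists_notMem (small_iUnion om_le (fun a => ⋃ c, (x a c).supp)
    fun a => small_iUnion cond_le _ fun c => small_ctble (JJ.supp_ctble _))
  obtain ⟨v, -, a, ha⟩ := mem_fex.1 (hE fun n => {w | (al, n, true) ∈ w.2.1}) r le_rfl
  have hal' : al ∉ (x a v.1).supp := fun h =>
    hal (Set.mem_iUnion.2 ⟨a, Set.mem_iUnion.2 ⟨v.1, h⟩⟩)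
  obtain ⟨n, hn⟩ : ∃ n : ℕ, n ∉ (fun i : KK × ℕ × Bool => i.2.1) '' v.2.1 :=
    (v.2.2.1.image _).exists_notMem
  have hn' : ∀ b, (al, n, b) ∉ v.2.1 := fun b h => hn ⟨_, h, rfl⟩
  have sg : ∀ b : Bool, ∃ s : Fn, s.1 = {(al, n, b)} := fun b =>
    ⟨⟨{(al, n, b)}, Set.finite_singleton _, by
      rintro a' n' b' h1 h2
      have := (Set.mem_singleton_iff.1 h1).trans (Set.mem_singleton_iff.1 h2).symm
      simp at this⟩, rfl⟩
  by_cases h : v.2 ∈ fnot (meets ((x a v.1).at n))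
  · obtain ⟨s, hs⟩ := sg true
    have hc : ∀ a' n' b, (a', n', b) ∈ v.2.1 → (a', n', !b) ∉ s.1 := by
      intro a' n' b h1 h2
      rw [hs, Set.mem_singleton_iff, Prod.mk.injEq, Prod.mk.injEq] at h2
      obtain ⟨rfl, rfl, -⟩ := h2
      exact hn' _ h1
    have e1 : (p' a v.1, v.2.join s hc) ≤ v := ⟨hp' a v.1, Fn.join_le_left _ _ hc⟩
    obtain ⟨w, h2, h3⟩ := mem_fimp.1 (ha n).1 _ e1
      (meets_of_le (r := (p' a v.1, v.2.join s hc)) (Or.inr (hs ▸ rfl)) le_rfl)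
    obtain ⟨w', h4, h5⟩ := mem_fimp.1 (hx a v.1 w.2 n).1 w ⟨h2.1, le_rfl⟩ h3
    exact h w'.2 (h4.2.trans (h2.2.trans e1.2)) (meets_EE.1 h5)
  · simp only [fnot, Set.mem_ofPred_eq, not_forall, not_not] at h
    obtain ⟨u, h1, h2⟩ := h
    obtain ⟨u', h3, t, h4, h5⟩ := h2 u le_rfl
    have hc0 : ∀ a' n' b, (a', n', b) ∈ v.2.1 → (a', n', !b) ∉ t.1 := fun a' n' b e e' =>
      u'.2.2 a' n' b ((h3.trans h1) e) (h5 e')
    obtain ⟨s, hs⟩ := sg false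
    have hc : ∀ a' n' b, (a', n', b) ∈ (v.2.join t hc0).1 → (a', n', !b) ∉ s.1 := by
      intro a' n' b h1 h2
      rw [hs, Set.mem_singleton_iff, Prod.mk.injEq, Prod.mk.injEq] at h2
      obtain ⟨rfl, rfl, -⟩ := h2
      rcases h1 with h1 | h1
      · exact hn' _ h1
      · exact hal' (JJ.mem_supp h4 h1)
    let z := (v.2.join t hc0).join s hc
    have e0 : z ≤ v.2.join t hc0 := Fn.join_le_left _ _ hc
    obtain ⟨w, h6, h7⟩ := mem_fimp.1 (hx a v.1 z n).2 (p' a v.1, z) le_rfl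
      (meets_EE.2 (meets_of_le h4 (e0.trans (Fn.join_le_right _ _ hc0))))
    obtain ⟨w', h8, h9⟩ := mem_fimp.1 (ha n).2 w
      (h6.trans ⟨hp' a v.1, e0.trans (Fn.join_le_left _ _ hc0)⟩) h7
    obtain ⟨w'', h10, y, h11, h12⟩ := h9 w' le_rfl
    refine w''.2.2.2 al n true (h12.2 h11) ((h10.2.trans (h8.2.trans h6.2)) (Or.inr ?_))
    rw [hs]; rfl

end Pool.Agent.H945Z.Had
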