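import Pool.Agent.H945Z.Had.Fn

namespace Pool.Agent.H945Z.Had

open Pool.Agent.Helper292.ForceCH Cardinal

noncomputable def rk (x : JJ) : KK :=
  WellFounded.min (wellFounded_lt (α := KK)) {a | ∀ b ∈ x.supp, b < a} (exists_boundK x.supp_ctble)

lemma lt_rk {x : JJ} {b : KK} (h : b ∈ x.supp) : b < rk x :=
  WellFounded.min_mem (wellFounded_lt (α := KK)) {a | ∀ b ∈ x.supp, b < a} _ b h

lemma rk_le {x : JJ} {c : KK} (h : ∀ b ∈ x.supp, b < c) : rk x ≤ c :=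
  not_lt.1 (WellFounded.not_lt_min (wellFounded_lt (α := KK))
    (s := {a | ∀ b ∈ x.supp, b < a}) h)

lemma exists_cut {x : JJ} {c : KK} (h : c < rk x) :
    ∃ b ∈ x.supp, ∀ d ∈ x.supp, d < b ↔ d < c := by
  have h1 : {b | b ∈ x.supp ∧ c ≤ b}.Nonempty := by
    by_contra hc
    exact absurd (rk_le fun b hb => not_le.1 fun e => hc ⟨b, hb, e⟩) (not_le.2 h)
  obtain ⟨b, hb, hm⟩ := (wellFounded_lt (α := KK)).has_min _ h1
  exact ⟨b, hb.1, fun d hd => ⟨fun e => not_le.1 fun e' => hm d ⟨hd, e'⟩ e,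
    fun e => e.trans_le hb.2⟩⟩

lemma exists_iota : ∃ ι : JJ → Set Om, ∀ x y, rk x = rk y → ι x = ι y → x = y := by
  have h : ∀ a : KK, ∃ f : {x : JJ | rk x = a} → Set Om, Function.Injective f := by
    intro a
    have h1 := small_sets (small_prod (small_ctble (Set.countable_univ (α := ℕ)))
      (small_supp (small_Iic a)))
    have h2 : #{x : JJ | rk x = a} ≤ #(Set Om) := by
      refine le_trans (mk_le_of_injective (f := fun x => ⟨x.1.1, fun e he => ⟨trivial,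
        fun i hi => (lt_of_lt_of_eq (lt_rk (JJ.mem_supp (x := x.1) (n := e.1) (r := e.2) he hi))
          x.2).le⟩, x.1.2⟩) fun s t e => ?_) h1
      have := congrArg Subtype.val e
      exact Subtype.ext (Subtype.ext this)
    obtain ⟨f⟩ := (Cardinal.le_def _ _).1 h2
    exact ⟨f, f.injective⟩
  choose f hf using h
  refine ⟨fun x => f (rk x) ⟨x, rfl⟩, fun x y e e' => ?_⟩
  have key : ∀ a (h : rk y = a), f (rk y) ⟨y, rfl⟩ = f a ⟨y, h⟩ := by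
    rintro _ rfl; rfl
  have e'' : f (rk x) ⟨x, rfl⟩ = f (rk x) ⟨y, e.symm⟩ := e'.trans (key _ e.symm)
  exact congrArg Subtype.val (hf _ e'')

/-- `s` forces that `x` is contained in `y` -/
def Sub (s : Fn) (x y : JJ) : Prop := ∀ n, ∀ r ∈ x.at n, ∀ u ≤ s, u ≤ r → u ∈ meets (y.at n)

lemma Sub.meets {s : Fn} {x y : JJ} (h : Sub s x y) {n : ℕ} {u : Fn} (hu : u ≤ s)
    (h' : u ∈ meets (x.at n)) : u ∈ meets (y.at n) := by
  refine meets_of_dense fun v hv => ?_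
  obtain ⟨w, h1, r, h2, h3⟩ := h' v hv
  exact ⟨w, h1, h n r h2 w (h1.trans (hv.trans hu)) h3⟩

lemma Sub.refl (s : Fn) (x : JJ) : Sub s x x := fun _ _ hr _ _ h => meets_of_le hr h

lemma Sub.trans {s : Fn} {x y z : JJ} (h : Sub s x y) (h' : Sub s y z) : Sub s x z :=
  fun n r hr u hu e => h'.meets hu (h n r hr u hu e)

lemma subName_iff {r : PP} {x y : JJ} : r ∈ SubName (EE x) (EE y) ↔ Sub r.2 x y := by
  constructor
  · intro h n t ht u hu e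
    refine meets_of_dense fun v hv => ?_
    obtain ⟨w, h1, h2⟩ := mem_fimp.1 (h n) (r.1, v) ⟨le_rfl, hv.trans hu⟩
      (meets_EE.2 (meets_of_le ht (hv.trans e)))
    exact ⟨w.2, h1.2, meets_EE.1 h2⟩
  · intro h n
    exact fimp_of fun v hv h' => meets_EE.2 (h.meets hv.2 (meets_EE.1 h'))

def low (y : JJ) (s : Fn) (b : KK) : JJ :=
  ⟨{e | (∀ i ∈ e.2.1, i.1 ∈ y.supp ∧ i.1 < b) ∧ ∀ w ≤ e.2, w ≤ s → w ∈ meets (y.at e.1)},
    by
      refine ((Set.countable_univ (α := ℕ)).prod (ctble_supp y.supp_ctble)).mono ?_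
      intro _ he
      exact ⟨trivial, fun i hi => (he.1 i hi).1⟩⟩

def up (x : JJ) (s : Fn) (b : KK) : JJ :=
  ⟨(fun e : ℕ × Fn => (e.1, e.2.res (Set.Iio b))) ''
      {e | e ∈ x.1 ∧ ∀ a n c, (a, n, c) ∈ e.2.1 → (a, n, !c) ∉ s.1},
    (x.2.mono fun _ he => he.1).image _⟩

def Child (y z : JJ) : Prop :=
  ∃ b ∈ y.supp, ∃ s : Fn, (∀ i ∈ s.1, i.1 ∈ y.supp) ∧ (z = low y s b ∨ z = up y s b)

lemma child_ctble (y : JJ) : {z | Child y z}.Countable := by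
  have h := y.supp_ctble.prod (ctble_supp y.supp_ctble)
  refine ((h.image fun e => low y e.2 e.1).union (h.image fun e => up y e.2 e.1)).mono ?_
  rintro z ⟨b, hb, s, hs, rfl | rfl⟩
  · exact Or.inl ⟨(b, s), ⟨hb, hs⟩, rfl⟩
  · exact Or.inr ⟨(b, s), ⟨hb, hs⟩, rfl⟩

def Cl (x z : JJ) : Prop := Relation.ReflTransGen Child x z

lemma cl_ctble (x : JJ) : {z | Cl x z}.Countable := by
  let L : ℕ → Set JJ := fun n => Nat.rec {x} (fun _ A => ⋃ y ∈ A, {z | Child y z}) n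
  have h1 : ∀ n, (L n).Countable := by
    intro n
    induction n with
    | zero => exact Set.countable_singleton x
    | succ n ih => exact ih.biUnion fun y _ => child_ctble y
  refine (Set.countable_iUnion h1).mono fun z hz => ?_
  have hz' : Relation.ReflTransGen Child x z := hz
  clear hz
  induction hz' with
  | refl => exact Set.mem_iUnion.2 ⟨0, rfl⟩
  | tail _ h ih =>
    obtain ⟨n, hn⟩ := Set.mem_iUnion.1 ih
    exact Set.mem_iUnion.2 ⟨n + 1, Set.mem_biUnion hn h⟩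

lemma step_low {s : Fn} {x y : JJ} (h : Sub s x y) (hr : rk x < rk y) :
    ∃ z, Child y z ∧ rk z < rk y ∧ Sub s x z ∧ Sub s z y := by
  obtain ⟨b, hb, hb'⟩ := exists_cut hr
  refine ⟨low y (s.res y.supp) b, ⟨b, hb, s.res y.supp, fun i hi => hi.2, Or.inl rfl⟩, ?_, ?_, ?_⟩
  · refine (rk_le ?_).trans_lt (lt_rk hb)
    rintro _ ⟨_, ⟨e, he, rfl⟩, i, hi, rfl⟩
    exact (he.1 i hi).2
  · intro n r hr u hu e
    refine meets_of_le (r := u.res {d | d ∈ y.supp ∧ d < b}) ⟨fun i hi => hi.2, ?_⟩ (u.le_res _)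
    intro w hw hw'
    have hc : ∀ a n c, (a, n, c) ∈ (u.res (Set.Iio (rk x))).1 → (a, n, !c) ∉ s.1 :=
      fun a n c h1 h2 => u.2.2 a n c h1.1 (hu h2)
    have h1 := h n r hr ((u.res (Set.Iio (rk x))).join s hc) (Fn.join_le_right _ _ hc)
      fun i hi => Or.inl ⟨e hi, lt_rk (JJ.mem_supp hr hi)⟩
    refine res_meets (B := y.supp) (fun r hr i hi => JJ.mem_supp hr hi) h1 ?_
    rintro i (hi | hi) hi'
    · exact hw ⟨hi.1, hi', (hb' _ hi').2 hi.2⟩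
    · exact hw' ⟨hi, hi'⟩
  · intro n r hr u hu e
    exact hr.2 u e (hu.trans (s.le_res _))

lemma step_up {s : Fn} {x y : JJ} (h : Sub s x y) (hr : rk y < rk x) :
    ∃ z, Child x z ∧ rk z < rk x ∧ Sub s x z ∧ Sub s z y := by
  obtain ⟨b, hb, hb'⟩ := exists_cut hr
  refine ⟨up x (s.res x.supp) b, ⟨b, hb, s.res x.supp, fun i hi => hi.2, Or.inr rfl⟩, ?_, ?_, ?_⟩
  · refine (rk_le ?_).trans_lt (lt_rk hb)
    rintro _ ⟨_, ⟨_, ⟨e, he, rfl⟩, rfl⟩, i, hi, rfl⟩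
    exact hi.2
  · intro n r hr u hu e
    exact meets_of_le (r := r.res (Set.Iio b))
      ⟨(n, r), ⟨hr, fun a m c h1 h2 => u.2.2 a m c (e h1) (hu h2.1)⟩, rfl⟩ (e.trans (r.le_res _))
  · rintro n r' ⟨⟨m, r⟩, ⟨hr, hc⟩, he⟩ u hu e
    obtain ⟨rfl, rfl⟩ := Prod.mk.inj he
    have hr' : r ∈ x.at m := hr
    have hsub : ∀ i ∈ r.1, i.1 < rk y → i ∈ u.1 := fun i hi hi' =>
      e ⟨hi, (hb' _ (JJ.mem_supp hr' hi)).2 hi'⟩
    have c1 : ∀ a n c, (a, n, c) ∈ (u.res (Set.Iio (rk y))).1 → (a, n, !c) ∉ s.1 :=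
      fun a n c h1 h2 => u.2.2 a n c h1.1 (hu h2)
    have c2 : ∀ a n c, (a, n, c) ∈ r.1 →
        (a, n, !c) ∉ ((u.res (Set.Iio (rk y))).join s c1).1 := by
      rintro a n c h1 (h2 | h2)
      · exact u.2.2 a n c (hsub _ h1 h2.2) h2.1
      · exact hc a n c h1 ⟨h2, JJ.mem_supp hr' (i := (a, n, c)) h1⟩
    have h1 := h m r hr' (r.join _ c2) ((Fn.join_le_right _ _ c2).trans (Fn.join_le_right _ _ c1))
      (Fn.join_le_left _ _ c2)
    refine res_meets (B := y.supp) (fun r hr i hi => JJ.mem_supp hr hi) h1 ?_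
    rintro i (hi | hi | hi) hi'
    · exact hsub i hi (lt_rk hi')
    · exact hi.1
    · exact hu hi

lemma equalize (s : Fn) : ∀ (a b : KK) (x y : JJ), rk x = a → rk y = b → Sub s x y →
    ∃ x' y', Cl x x' ∧ Cl y y' ∧ rk x' = rk y' ∧ Sub s x x' ∧ Sub s x' y' ∧ Sub s y' y := by
  intro a
  induction a using WellFoundedLT.induction with
  | _ a iha =>
  intro b
  induction b using WellFoundedLT.induction with
  | _ b ihb =>
  intro x y ha hb h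
  rcases lt_trichotomy (rk x) (rk y) with e | e | e
  · obtain ⟨z, h1, h2, h3, h4⟩ := step_low h e
    obtain ⟨x', y', a1, a2, a3, a4, a5, a6⟩ := ihb (rk z) (hb ▸ h2) x z ha rfl h3
    exact ⟨x', y', a1, Relation.ReflTransGen.head h1 a2, a3, a4, a5, a6.trans h4⟩
  · exact ⟨x, y, Relation.ReflTransGen.refl, Relation.ReflTransGen.refl, e, Sub.refl _ _, h,
      Sub.refl _ _⟩
  · obtain ⟨z, h1, h2, h3, h4⟩ := step_up h e
    obtain ⟨x', y', a1, a2, a3, a4, a5, a6⟩ := iha (rk z) (ha ▸ h2) _ z y rfl rfl h4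
    exact ⟨x', y', Relation.ReflTransGen.head h1 a1, a2, a3, h3.trans a4, a5, a6⟩

lemma list_ctble {S : Set (Set Om)} (hS : S.Countable) (p : Cond) :
    ∃ q ≤ p, ∀ z ∈ S, ∃ c < q.1, q.2 c = z := by
  rcases S.eq_empty_or_nonempty with rfl | hn
  · exact ⟨p, le_rfl, fun _ h => h.elim⟩
  obtain ⟨f, rfl⟩ := hS.exists_eq_range hn
  obtain ⟨q, h1, h2⟩ := meet_countable sigmaClosed (fun n => {q | ∃ c < q.1, q.2 c = f n})
    (fun n q ⟨c, h1, h2⟩ q' hq' => ⟨c, h1.trans_le hq'.1, (hq'.2 c h1).trans h2⟩) p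
    (fun n r _ => by
      obtain ⟨q, h1, h2, h3⟩ := exists_succ r (f n)
      exact ⟨q, h1, r.1, h2, h3⟩)
  refine ⟨q, h1, ?_⟩
  rintro _ ⟨n, rfl⟩
  exact h2 n

def FF (ι : JJ → Set Om) (x y : JJ) : Set PP :=
  {r | ∃ z, Cl x z ∧ rk y = rk z ∧ ∃ b b', b ≤ b' ∧ b' < r.1.1 ∧ r.1.2 b = ι y ∧ r.1.2 b' = ι z ∧
    ∀ c < b', r.1.2 c ≠ ι z}

theorem wfn_holds (p : PP) : p ∈ WFNHolds PP JJ := by
  obtain ⟨ι, hι⟩ := exists_iota
  refine mem_fex.2 fun q _ => ⟨q, le_rfl, EE, mem_fex.2 fun r _ => ⟨r, le_rfl, FF ι, ?_, ?_, ?_⟩⟩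
  · intro a
    refine mem_fex.2 fun v _ => ?_
    obtain ⟨p', h1, x, h2⟩ := nice_name a v.1
    exact ⟨(p', v.2), ⟨h1, le_rfl⟩, x, h2 v.2⟩
  · intro x
    refine mem_fex.2 fun v _ => ?_
    obtain ⟨p', h1, h2⟩ := list_ctble ((cl_ctble x).image ι) v.1
    have hY : (insert x (⋃ z ∈ {z | Cl x z}, ⋃ b ∈ Set.Iio p'.1,
        {y | rk y = rk z ∧ p'.2 b = ι y})).Countable := by
      refine ((cl_ctble x).biUnion fun z _ => (ctble_Iio _).biUnion fun b _ => ?_).insert _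
      exact Set.Subsingleton.countable fun y hy y' hy' =>
        hι _ _ (hy.1.trans hy'.1.symm) (hy.2.symm.trans hy'.2)
    obtain ⟨f, hf⟩ := hY.exists_eq_range (Set.insert_nonempty _ _)
    refine ⟨(p', v.2), ⟨h1, le_rfl⟩, fun k y => {_r | f k = y}, ⟨fun k => ?_, fun k y y' => ?_⟩,
      fun y => ?_⟩
    · exact mem_fex.2 fun w _ => ⟨w, le_rfl, f k, meets_of_le (r := w) rfl le_rfl⟩
    · refine fimp_of fun w _ hw => ?_
      obtain ⟨_, _, _, e1, _⟩ := hw.1 w le_rfl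
      obtain ⟨_, _, _, e2, _⟩ := hw.2 w le_rfl
      exact Eq.trans (Eq.symm e1) e2
    · refine fimp_of fun w hw hw' => ?_
      obtain ⟨w', e1, u, ⟨z, a1, a2, b, b', a3, a4, a5, a6, a7⟩, e2⟩ := hw' w le_rfl
      obtain ⟨c, c1, c2⟩ := h2 _ ⟨z, a1, rfl⟩
      have e3 : w'.1 ≤ p' := (e1.trans hw).1
      have h3 : b' ≤ c := not_lt.1 fun e => a7 c e
        ((e2.1.2 c (e.trans a4)).symm.trans ((e3.2 c c1).trans c2))
      have h4 : b < p'.1 := (a3.trans h3).trans_lt c1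
      have h5 : p'.2 b = ι y :=
        (e3.2 b h4).symm.trans ((e2.1.2 b (a3.trans_lt a4)).trans a5)
      have h6 : y ∈ Set.range f := by
        rw [← hf]
        exact Or.inr (Set.mem_biUnion (show z ∈ {z | Cl x z} from a1)
          (Set.mem_biUnion (show b ∈ Set.Iio p'.1 from h4) ⟨a2, h5⟩))
      obtain ⟨k, hk⟩ := h6
      exact mem_fex.2 fun w _ => ⟨w, le_rfl, k, meets_of_le (r := w) hk le_rfl⟩
  · intro x y
    refine mem_fimp.2 fun v _ hv => ?_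
    obtain ⟨x', y', a1, a2, a3, a4, a5, a6⟩ := equalize v.2 _ _ x y rfl rfl (subName_iff.1 hv)
    obtain ⟨p', h1, h2⟩ := list_ctble (Set.toFinite {ι x', ι y'}).countable v.1
    obtain ⟨bx, ⟨b1, b2⟩, b3⟩ := (wellFounded_lt (α := Om)).has_min
      {c | c < p'.1 ∧ p'.2 c = ι x'} (h2 _ (Or.inl rfl))
    obtain ⟨bz, ⟨c1, c2⟩, c3⟩ := (wellFounded_lt (α := Om)).has_min
      {c | c < p'.1 ∧ p'.2 c = ι y'} (h2 _ (Or.inr rfl))
    have b4 : ∀ c < bx, p'.2 c ≠ ι x' := fun c hc e => b3 c ⟨hc.trans b1, e⟩ hc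
    have c4 : ∀ c < bz, p'.2 c ≠ ι y' := fun c hc e => c3 c ⟨hc.trans c1, e⟩ hc
    refine ⟨(p', v.2), ⟨h1, le_rfl⟩, mem_fex.2 fun w hw => ⟨w, le_rfl, ?_⟩⟩
    have hsub : ∀ {a b : JJ}, Sub v.2 a b → w ∈ SubName (EE a) (EE b) := fun h =>
      subName_iff.2 fun n r hr u hu e => h n r hr u (hu.trans hw.2) e
    rcases le_total bx bz with e | e
    · exact ⟨x', meets_of_le (r := (p', v.2)) ⟨x', a1, rfl, bx, bx, le_rfl, b1, b2, b2, b4⟩ hw,
        meets_of_le (r := (p', v.2)) ⟨y', a2, a3, bx, bz, e, c1, b2, c2, c4⟩ hw,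
        hsub a4, hsub (a5.trans a6)⟩
    · exact ⟨y', meets_of_le (r := (p', v.2)) ⟨x', a1, a3.symm, bz, bx, e, b1, c2, b2, b4⟩ hw,
        meets_of_le (r := (p', v.2)) ⟨y', a2, rfl, bz, bz, le_rfl, c1, c2, c2, c4⟩ hw,
        hsub (a4.trans a5), hsub a6⟩

theorem exists_forcing_wfn : ∃ (P : Type) (_ : Preorder P) (J : Type), Nonempty P ∧ ∀ p : P,
    p ∈ OmegaOnePreserved P ∧ p ∈ fnot (CHHolds P) ∧ p ∈ WFNHolds P J :=
  ⟨PP, inferInstance, JJ, inferInstance, fun p => ⟨omega_pres p, not_ch p, wfn_holds p⟩⟩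

end Pool.Agent.H945Z.Had
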