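import Pool.Agent.Helper290.Calk.Basic

namespace Pool.Agent.H945Z.Had

open Pool.Agent.Helper290.Calk
open scoped InnerProductSpace

variable {H : Type*} [NormedAddCommGroup H] [InnerProductSpace ℂ H] [CompleteSpace H]

lemma proj_π {x : H →L[ℂ] H} (hx : IsStarProjection x) : IsStarProjection (π x) := by
  rw [isStarProjection_iff']
  rw [← map_mul, hx.isIdempotentElem, ← π_star, hx.isSelfAdjoint.star_eq]
  exact ⟨rfl, rfl⟩

lemma proj_swap {A : Type*} [Ring A] [StarRing A] {p q : A} (hp : IsStarProjection p)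
    (hq : IsStarProjection q) (h : p * q = p) : q * p = p := by
  have := congrArg star h
  rwa [star_mul, hp.isSelfAdjoint.star_eq, hq.isSelfAdjoint.star_eq] at this

lemma π_proj_zero (U : Submodule ℂ H) [FiniteDimensional ℂ U] : π U.starProjection = 0 := by
  have hp : ProperSpace U := FiniteDimensional.proper_rclike ℂ U
  have h1 : IsCompactOperator (U.orthogonalProjectionOnto : H →L[ℂ] U) :=
    isCompactOperator_of_locallyCompactSpace_dom U.orthogonalProjectionOnto
  exact π_eq_zero_iff.2 (h1.clm_comp U.subtypeL)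

lemma exists_gap [TopologicalSpace.SeparableSpace H] {S : H →L[ℂ] H} (hS : IsSelfAdjoint S)
    (hK : IsCompactOperator (S * S - S : H →L[ℂ] H)) :
    ∃ t : ℝ, 0 < t ∧ t < 1 ∧ t ∉ spectrum ℝ S := by
  by_contra hc
  push Not at hc
  obtain ⟨K, hKdef⟩ : ∃ K : H →L[ℂ] H, K = S * S - S := ⟨_, rfl⟩
  rw [← hKdef] at hK
  have hKs : IsSelfAdjoint K := by
    rw [hKdef, IsSelfAdjoint, star_sub, star_mul, hS.star_eq]
  have key : ∀ t : Set.Ioo (0 : ℝ) (1 / 2), ∃ v : H, ‖v‖ = 1 ∧
      K v = ((t.1 * t.1 - t.1 : ℝ) : ℂ) • v := by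
    rintro ⟨t, h0, h1⟩
    have hsp : ((t * t - t : ℝ) : ℂ) ∈ spectrum ℂ K := by
      have h2 : (algebraMap ℝ ℂ t) ∈ spectrum ℂ S :=
        (spectrum.algebraMap_mem_iff ℂ).2 (hc t h0 (by linarith))
      rw [spectrum.mem_iff] at h2 ⊢
      intro hu
      apply h2
      have e : algebraMap ℂ (H →L[ℂ] H) ((t * t - t : ℝ) : ℂ) - K =
          (algebraMap ℂ (H →L[ℂ] H) (algebraMap ℝ ℂ t) - S) *
          (algebraMap ℂ (H →L[ℂ] H) (algebraMap ℝ ℂ t) + S - 1) := by
        have hc := Algebra.commutes (A := H →L[ℂ] H) (algebraMap ℝ ℂ t) S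
        have : ((t * t - t : ℝ) : ℂ) = algebraMap ℝ ℂ t * algebraMap ℝ ℂ t - algebraMap ℝ ℂ t := by
          simp
        rw [this, map_sub, map_mul, hKdef]
        generalize algebraMap ℂ (H →L[ℂ] H) (algebraMap ℝ ℂ t) = a at hc ⊢
        rw [sub_mul, mul_sub, mul_sub, mul_add, mul_add, hc]
        noncomm_ring
      rw [e] at hu
      have hcm : Commute (algebraMap ℂ (H →L[ℂ] H) (algebraMap ℝ ℂ t) - S)
          (algebraMap ℂ (H →L[ℂ] H) (algebraMap ℝ ℂ t) + S - 1) := by
        have hc : Commute (algebraMap ℂ (H →L[ℂ] H) (algebraMap ℝ ℂ t)) S :=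
          Algebra.commutes _ _
        exact (((Commute.refl _).add_right hc).sub_right (Commute.one_right _)).sub_left
          ((hc.symm.add_right (Commute.refl _)).sub_right (Commute.one_right _))
      exact (hcm.isUnit_mul_iff.1 hu).1
    have hne : ((t * t - t : ℝ) : ℂ) ≠ 0 := by
      rw [Complex.ofReal_ne_zero]
      nlinarith
    obtain ⟨v, hv⟩ := ((hK.hasEigenvalue_iff_mem_spectrum hne).2 hsp).exists_hasEigenvector
    have hv0 : ‖v‖ ≠ 0 := norm_ne_zero_iff.2 hv.2
    refine ⟨((‖v‖⁻¹ : ℝ) : ℂ) • v, ?_, ?_⟩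
    · rw [norm_smul, Complex.norm_real, norm_inv, norm_norm, inv_mul_cancel₀ hv0]
    · have : K v = ((t * t - t : ℝ) : ℂ) • v := hv.apply_eq_smul
      rw [map_smul, this, smul_comm]
  choose v hv1 hv2 using key
  have horth : ∀ s t, s ≠ t → ⟪v s, v t⟫_ℂ = 0 := by
    intro s t hst
    have h1 : ⟪K (v s), v t⟫_ℂ = ⟪v s, K (v t)⟫_ℂ := hKs.isSymmetric _ _
    rw [hv2, hv2, inner_smul_left, inner_smul_right, Complex.conj_ofReal, ← sub_eq_zero,
      ← sub_mul] at h1
    rcases mul_eq_zero.1 h1 with h | h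
    · exfalso
      rw [← Complex.ofReal_sub, Complex.ofReal_eq_zero] at h
      have hne : s.1 - t.1 ≠ 0 := sub_ne_zero.2 fun e => hst (Subtype.ext e)
      have : (s.1 - t.1) * (s.1 + t.1 - 1) = 0 := by linarith
      rcases mul_eq_zero.1 this with h | h
      · exact hne h
      · have := s.2.2
        have := t.2.2
        linarith
    · exact h
  have hdis : Pairwise (Function.onFun Disjoint fun t => Metric.ball (v t) (1 / 2)) := by
    intro s t hst
    apply Metric.ball_disjoint_ball
    rw [dist_eq_norm]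
    have h1 := norm_sub_sq (𝕜 := ℂ) (v s) (v t)
    rw [horth s t hst, hv1, hv1] at h1
    simp at h1
    nlinarith [norm_nonneg (v s - v t)]
  have hcount := hdis.countable_of_isOpen_disjoint (fun _ => Metric.isOpen_ball)
    (fun _ => Metric.nonempty_ball.2 (by norm_num))
  have := Cardinal.mk_Ioo_real (show (0 : ℝ) < 1 / 2 by norm_num)
  have h2 := Cardinal.mk_le_aleph0_iff.2 hcount
  rw [this] at h2
  exact absurd h2 (not_le.2 Cardinal.aleph0_lt_continuum)

lemma lift_under [TopologicalSpace.SeparableSpace H] {E : H →L[ℂ] H} (hE : IsStarProjection E)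
    {x : Calkin H} (hx : IsStarProjection x) (hle : x * π E = x) :
    ∃ F : H →L[ℂ] H, IsStarProjection F ∧ π F = x ∧ F * E = F := by
  obtain ⟨T, hT⟩ := π_surjective x
  set S : H →L[ℂ] H := E * (star T * T) * E with hSdef
  have hle' := proj_swap hx (proj_π hE) hle
  have hS : IsSelfAdjoint S := by
    rw [hSdef, IsSelfAdjoint, star_mul, star_mul, star_mul, star_star, hE.isSelfAdjoint.star_eq]
    simp only [mul_assoc]
  have hπ : π S = x := by
    rw [hSdef, map_mul, map_mul, map_mul, π_star, hT, hx.isSelfAdjoint.star_eq,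
      hx.isIdempotentElem, hle', hle]
  have hSE : S * E = S := by rw [hSdef, mul_assoc, hE.isIdempotentElem]
  clear_value S
  have hK0 : π (S * S - S) = 0 := by rw [map_sub, map_mul, hπ, hx.isIdempotentElem, sub_self]
  obtain ⟨t, h0, h1, ht⟩ := exists_gap hS (π_eq_zero_iff.1 hK0)
  have hne : ∀ y ∈ spectrum ℝ S, y ≠ t := fun y hy e => ht (e ▸ hy)
  let g : ℝ → ℝ := fun y => if t < y then -y⁻¹ else (1 - y)⁻¹
  have hg : ContinuousOn g (spectrum ℝ S) := by
    intro y hy
    apply ContinuousAt.continuousWithinAt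
    rcases lt_or_gt_of_ne (hne y hy) with h | h
    · have : g =ᶠ[nhds y] fun y => (1 - y)⁻¹ := by
        filter_upwards [Iio_mem_nhds h] with z hz
        exact if_neg (not_lt.2 (le_of_lt hz))
      refine ContinuousAt.congr ?_ this.symm
      have h' : (1 : ℝ) - y ≠ 0 := by linarith
      fun_prop (disch := assumption)
    · have : g =ᶠ[nhds y] fun y => -y⁻¹ := by
        filter_upwards [Ioi_mem_nhds h] with z hz
        exact if_pos hz
      refine ContinuousAt.congr ?_ this.symm
      have h' : y ≠ 0 := by linarith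
      fun_prop (disch := assumption)
  let f : ℝ → ℝ := fun y => y + g y * (y * y - y)
  have hf : ContinuousOn f (spectrum ℝ S) :=
    continuousOn_id.add (hg.mul (by fun_prop))
  have hff : ∀ y ∈ spectrum ℝ S, f y * f y = f y := by
    intro y _
    by_cases h : t < y
    · have : y ≠ 0 := by linarith
      have : f y = 1 := by simp only [f, g, if_pos h]; field_simp; ring
      rw [this, mul_one]
    · have : 1 - y ≠ 0 := by linarith [not_lt.1 h]
      have : f y = 0 := by simp only [f, g, if_neg h]; field_simp; ring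
      rw [this, mul_zero]
  have hF : cfc f S = S + cfc g S * (S * S - S) := by
    simp only [f]
    rw [cfc_add S (fun y => y) (fun y => g y * (y * y - y)) (by fun_prop) (hg.mul (by fun_prop)),
      cfc_mul g (fun y => y * y - y) S hg (by fun_prop),
      cfc_sub (fun y : ℝ => y * y) (fun y => y) S (by fun_prop) (by fun_prop),
      cfc_mul (fun y : ℝ => y) (fun y => y) S (by fun_prop) (by fun_prop),
      cfc_id' ℝ S]
  refine ⟨cfc f S, ⟨?_, cfc_predicate f S⟩, ?_, ?_⟩
  · show cfc f S * cfc f S = cfc f S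
    rw [← cfc_mul f f S hf hf]
    exact cfc_congr hff
  · rw [hF, map_add, map_mul, hK0, hπ, mul_zero, add_zero]
  · rw [hF, add_mul, mul_assoc, sub_mul, mul_assoc, hSE]

lemma proj_sub {A : Type*} [Ring A] [StarRing A] {p q : A} (hp : IsStarProjection p)
    (hq : IsStarProjection q) (h : p * q = p) : IsStarProjection (q - p) :=
  hp.sub_of_mul_eq_left hq h

lemma lift_between [TopologicalSpace.SeparableSpace H] {Q P : H →L[ℂ] H}
    (hQ : IsStarProjection Q) (hP : IsStarProjection P) (hQP : Q * P = Q)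
    {x : Calkin H} (hx : IsStarProjection x) (h1 : π Q * x = π Q) (h2 : x * π P = x) :
    ∃ X : H →L[ℂ] H, IsStarProjection X ∧ π X = x ∧ Q * X = Q ∧ X * P = X := by
  have h1' := proj_swap (proj_π hQ) hx h1
  have hPQ := proj_swap hQ hP hQP
  have hπ : π Q * π P = π Q := by rw [← map_mul, hQP]
  obtain ⟨F, hF, hF1, hF2⟩ := lift_under (proj_sub hQ hP hQP) (proj_sub (proj_π hQ) hx h1) (by
    rw [map_sub, sub_mul, mul_sub, mul_sub, h2, h1', hπ, (proj_π hQ).isIdempotentElem]
    simp)
  have hFQ : F * Q = 0 := by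
    rw [← hF2, mul_assoc, sub_mul, hPQ, hQ.isIdempotentElem, sub_self, mul_zero]
  have hQF : Q * F = 0 := by
    have := congrArg star hFQ
    rwa [star_mul, hF.isSelfAdjoint.star_eq, hQ.isSelfAdjoint.star_eq, star_zero] at this
  have hFP : F * P = F := by
    rw [mul_sub, hFQ, sub_zero] at hF2; exact hF2
  refine ⟨Q + F, hQ.add hF hQF, by rw [map_add, hF1]; simp, ?_, ?_⟩
  · rw [mul_add, hQF, add_zero, hQ.isIdempotentElem]
  · rw [add_mul, hQP, hFP]

end Pool.Agent.H945Z.Had
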