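import Pool.Agent.H945Z.Had.Lift

namespace Pool.Agent.H945Z.Had

open Pool.Agent.Helper290.Calk
open scoped InnerProductSpace
open Filter Topology

variable {H : Type*} [NormedAddCommGroup H] [InnerProductSpace ℂ H] [CompleteSpace H]

lemma proj_swap' {A : Type*} [Ring A] [StarRing A] {p q : A} (hp : IsStarProjection p)
    (hq : IsStarProjection q) (h : p * q = q) : q * p = q := by
  have := congrArg star h
  rwa [star_mul, hp.isSelfAdjoint.star_eq, hq.isSelfAdjoint.star_eq] at this

lemma zero_swap {A : Type*} [Ring A] [StarRing A] {p q : A} (hp : IsStarProjection p)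
    (hq : IsStarProjection q) (h : p * q = 0) : q * p = 0 := by
  have := congrArg star h
  rwa [star_mul, hp.isSelfAdjoint.star_eq, hq.isSelfAdjoint.star_eq, star_zero] at this

lemma ne_zero_of_fix {T : H →L[ℂ] H} {v : ℕ → H} (hv : Orthonormal ℂ v) (N : ℕ)
    (h : ∀ k, N ≤ k → T (v k) = v k) : π T ≠ 0 := by
  intro h0
  have h1 := tendsto_of_compact (π_eq_zero_iff.1 h0) (l := atTop) (f := v)
    ⟨1, fun i => (hv.1 i).le⟩ (fun x => by
      have h2 := (hv.inner_products_summable x).tendsto_atTop_zero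
      have h3 : Tendsto (fun i => ‖⟪v i, x⟫_ℂ‖) atTop (𝓝 0) := by
        have := h2.sqrt
        simpa [Real.sqrt_sq (norm_nonneg _)] using this
      rw [tendsto_zero_iff_norm_tendsto_zero]
      simpa only [norm_inner_symm x] using h3)
  have h2 : ∀ᶠ k in atTop, ‖T (v k)‖ = 1 := by
    filter_upwards [eventually_ge_atTop N] with k hk
    rw [h k hk, hv.1 k]
  have h3 : Tendsto (fun k => ‖T (v k)‖) atTop (𝓝 1) :=
    tendsto_const_nhds.congr' (h2.mono fun _ h => h.symm)
  exact zero_ne_one (tendsto_nhds_unique h1 h3)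

lemma exists_unit {W : H →L[ℂ] H} (hW : IsStarProjection W) (h0 : π W ≠ 0) (S : Set H)
    (hS : S.Finite) : ∃ v : H, ‖v‖ = 1 ∧ W v = v ∧ ∀ s ∈ S, ⟪s, v⟫_ℂ = 0 := by
  by_contra hc
  have hfd : FiniteDimensional ℂ (Submodule.span ℂ S) := FiniteDimensional.span_of_finite ℂ hS
  let Rg : Submodule ℂ H := LinearMap.range (W : H →ₗ[ℂ] H)
  have hfix : ∀ x ∈ Rg, W x = x := by
    rintro _ ⟨y, rfl⟩
    exact congrArg (fun T : H →L[ℂ] H => T y) hW.isIdempotentElem
  let φ : Rg →ₗ[ℂ] Submodule.span ℂ S :=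
    ((Submodule.span ℂ S).orthogonalProjectionOnto : H →ₗ[ℂ] Submodule.span ℂ S).comp Rg.subtype
  have hφ : Function.Injective φ := by
    rw [← LinearMap.ker_eq_bot, LinearMap.ker_eq_bot']
    intro x hx
    by_contra hx0
    have hx0' : ‖(x : H)‖ ≠ 0 := norm_ne_zero_iff.2 fun e => hx0 (Subtype.ext e)
    have hx1 : (x : H) ∈ (Submodule.span ℂ S)ᗮ :=
      Submodule.orthogonalProjectionOnto_eq_zero_iff.1 hx
    refine hc ⟨((‖(x : H)‖⁻¹ : ℝ) : ℂ) • (x : H), ?_, ?_, ?_⟩
    · rw [norm_smul, Complex.norm_real, norm_inv, norm_norm, inv_mul_cancel₀ hx0']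
    · rw [map_smul, hfix _ x.2]
    · intro s hs
      rw [inner_smul_right, hx1 s (Submodule.subset_span hs), mul_zero]
  have hfd2 : FiniteDimensional ℂ Rg := FiniteDimensional.of_injective φ hφ
  have e : Rg.starProjection * W = W := by
    ext y
    exact Submodule.starProjection_eq_self_iff.2 ⟨y, rfl⟩
  apply h0
  rw [← e, map_mul, π_proj_zero, zero_mul]

lemma kill_closure {T : H →L[ℂ] H} {S : Set H} (h : ∀ s ∈ S, T s = 0) :
    T * (Submodule.span ℂ S).topologicalClosure.starProjection = 0 := by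
  have h1 : (Submodule.span ℂ S).topologicalClosure ≤ LinearMap.ker (T : H →ₗ[ℂ] H) :=
    Submodule.topologicalClosure_minimal _ (Submodule.span_le.2 h) T.isClosed_ker
  ext y
  exact h1 (Submodule.starProjection_apply_mem _ y)

lemma lemA0 [TopologicalSpace.SeparableSpace H] (w : ℕ → Calkin H)
    (hw : ∀ n, IsStarProjection (w n)) (hd : ∀ n, w (n + 1) * w n = w (n + 1))
    (h0 : ∀ n, w n ≠ 0) :
    ∃ r, IsStarProjection r ∧ r ≠ 0 ∧ ∀ n, r * w n = r ∧ r ≠ w n := by
  have step : ∀ n (X : {X : H →L[ℂ] H // IsStarProjection X ∧ π X = w n}),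
      ∃ Y : {X : H →L[ℂ] H // IsStarProjection X ∧ π X = w (n + 1)}, Y.1 * X.1 = Y.1 := by
    intro n X
    obtain ⟨F, h1, h2, h3⟩ := lift_under X.2.1 (hw (n + 1)) (by rw [X.2.2]; exact hd n)
    exact ⟨⟨F, h1, h2⟩, h3⟩
  choose st hst using step
  obtain ⟨F0, a1, a2, -⟩ := lift_under (IsStarProjection.one (H →L[ℂ] H)) (hw 0) (by simp)
  let W : ∀ n, {X : H →L[ℂ] H // IsStarProjection X ∧ π X = w n} := fun n =>
    Nat.rec ⟨F0, a1, a2⟩ (fun k X => st k X) n
  have hWs : ∀ n, (W (n + 1)).1 * (W n).1 = (W (n + 1)).1 := fun n => hst n (W n)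
  have hWm : ∀ n m, n ≤ m → (W m).1 * (W n).1 = (W m).1 := by
    intro n m h
    induction h with
    | refl => exact (W n).2.1.isIdempotentElem
    | step h ih => rw [← hWs, mul_assoc, ih]
  have hu : ∀ n (S : Set H), ∃ v : H, S.Finite → ‖v‖ = 1 ∧ (W n).1 v = v ∧
      ∀ s ∈ S, ⟪s, v⟫_ℂ = 0 := by
    intro n S
    by_cases hS : S.Finite
    · obtain ⟨v, hv⟩ := exists_unit (W n).2.1 (by rw [(W n).2.2]; exact h0 n) S hS
      exact ⟨v, fun _ => hv⟩
    · exact ⟨0, fun h => absurd h hS⟩
  choose c hc using hu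
  let v : ℕ → H := (wellFounded_lt (α := ℕ)).fix
    fun n r => c n (Set.range fun m : Set.Iio n => r m.1 m.2)
  have hv : ∀ n, v n = c n (Set.range fun m : Set.Iio n => v m.1) := fun n =>
    WellFounded.fix_eq _ _ _
  have hv' : ∀ n, ‖v n‖ = 1 ∧ (W n).1 (v n) = v n ∧ ∀ m < n, ⟪v m, v n⟫_ℂ = 0 := by
    intro n
    have := hc n (Set.range fun m : Set.Iio n => v m.1) (Set.finite_range _)
    rw [← hv] at this
    exact ⟨this.1, this.2.1, fun m hm => this.2.2 _ ⟨⟨m, hm⟩, rfl⟩⟩
  have hon : Orthonormal ℂ v := by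
    refine ⟨fun n => (hv' n).1, fun n m h => ?_⟩
    rcases lt_or_gt_of_ne h with h | h
    · exact (hv' m).2.2 n h
    · exact inner_eq_zero_symm.1 ((hv' n).2.2 m h)
  have hfix : ∀ n m, n ≤ m → (W n).1 (v m) = v m := by
    intro n m h
    have := proj_swap (W m).2.1 (W n).2.1 (hWm n m h)
    conv_lhs => rw [← (hv' m).2.1]
    conv_rhs => rw [← (hv' m).2.1, ← this]
    rfl
  let K : Submodule ℂ H := (Submodule.span ℂ (Set.range fun k => v (2 * k))).topologicalClosure
  have hV : IsStarProjection K.starProjection := isStarProjection_starProjection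
  refine ⟨π K.starProjection, proj_π hV, ?_, fun n => ⟨?_, ?_⟩⟩
  · refine ne_zero_of_fix (v := fun k => v (2 * k))
      (hon.comp _ fun a b h => by omega) 0 fun k _ => ?_
    exact Submodule.starProjection_eq_self_iff.2
      (Submodule.le_topologicalClosure _ (Submodule.subset_span ⟨k, rfl⟩))
  · have hfd : FiniteDimensional ℂ (Submodule.span ℂ (v '' Set.Iio n)) :=
      FiniteDimensional.span_of_finite ℂ ((Set.finite_Iio n).image _)
    have h1 : (1 - (W n).1) * (1 - (Submodule.span ℂ (v '' Set.Iio n)).starProjection) *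
        K.starProjection = 0 := by
      apply kill_closure
      rintro _ ⟨k, rfl⟩
      show (1 - (W n).1) ((1 - (Submodule.span ℂ (v '' Set.Iio n)).starProjection) (v (2 * k))) = 0
      by_cases hk : 2 * k < n
      · rw [ContinuousLinearMap.sub_apply _ _ (v (2 * k)), ContinuousLinearMap.one_apply,
          Submodule.starProjection_eq_self_iff.2
            (Submodule.subset_span (Set.mem_image_of_mem v (show 2 * k ∈ Set.Iio n from hk))), sub_self,
          map_zero]
      · have : (Submodule.span ℂ (v '' Set.Iio n)).starProjection (v (2 * k)) = 0 := by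
          rw [Submodule.starProjection_apply_eq_zero_iff, Submodule.mem_orthogonal]
          intro u hu
          induction hu using Submodule.span_induction with
          | mem x hx =>
            obtain ⟨m, hm, rfl⟩ := hx
            exact (hv' _).2.2 m (lt_of_lt_of_le hm (not_lt.1 hk))
          | zero => simp
          | add x y _ _ hx hy => rw [inner_add_left, hx, hy, add_zero]
          | smul a x _ hx => rw [inner_smul_left, hx, mul_zero]
        rw [ContinuousLinearMap.sub_apply _ _ (v (2 * k)), ContinuousLinearMap.one_apply, this,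
          sub_zero, ContinuousLinearMap.sub_apply, ContinuousLinearMap.one_apply,
          hfix n _ (not_lt.1 hk), sub_self]
    have h2 := congrArg π h1
    rw [map_mul, map_mul, map_sub, map_sub, π_proj_zero, map_one, sub_zero, mul_one, map_zero,
      (W n).2.2, sub_mul, one_mul, sub_eq_zero] at h2
    exact proj_swap' (hw n) (proj_π hV) h2.symm
  · intro e
    refine ne_zero_of_fix (T := (W n).1 - K.starProjection) (v := fun k => v (2 * k + 1))
      (hon.comp _ fun a b h => by omega) n (fun k hk => ?_) (by rw [map_sub, (W n).2.2, e, sub_self])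
    have : K.starProjection (v (2 * k + 1)) = 0 := by
      have h1 := kill_closure (T := (innerSL ℂ (v (2 * k + 1))).smulRight (v (2 * k + 1)))
        (S := Set.range fun k => v (2 * k)) (by
          rintro _ ⟨j, rfl⟩
          have : ⟪v (2 * k + 1), v (2 * j)⟫_ℂ = 0 := hon.2 (by omega)
          simp [this])
      rw [Submodule.starProjection_apply_eq_zero_iff, Submodule.mem_orthogonal']
      intro u hu
      have h2 := congrArg (fun T : H →L[ℂ] H => T u) h1
      simp only [ContinuousLinearMap.mul_apply, ContinuousLinearMap.smulRight_apply,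
        ContinuousLinearMap.zero_apply, innerSL_apply_apply] at h2
      rw [Submodule.starProjection_eq_self_iff.2 hu] at h2
      rcases smul_eq_zero.1 h2 with h | h
      · exact h
      · rw [h, inner_zero_left]
    rw [ContinuousLinearMap.sub_apply, this, sub_zero, hfix n _ (by omega)]

lemma lemA [TopologicalSpace.SeparableSpace H] (q : Calkin H) (u : ℕ → Calkin H)
    (hq : IsStarProjection q) (hu : ∀ n, IsStarProjection (u n))
    (hd : ∀ n, u (n + 1) * u n = u (n + 1)) (h1 : ∀ n, q * u n = q) (h2 : ∀ n, q ≠ u n) :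
    ∃ r, IsStarProjection r ∧ q * r = q ∧ q ≠ r ∧ ∀ n, r * u n = r ∧ r ≠ u n := by
  have h1' := fun n => proj_swap hq (hu n) (h1 n)
  obtain ⟨r, a, b, c⟩ := lemA0 (fun n => u n - q) (fun n => proj_sub hq (hu n) (h1 n))
    (fun n => by
      rw [sub_mul, mul_sub, mul_sub, hd, h1', h1, hq.isIdempotentElem]; simp)
    (fun n => sub_ne_zero.2 (h2 n).symm)
  have hrq : r * q = 0 := by
    rw [← (c 0).1, mul_assoc, sub_mul, h1', hq.isIdempotentElem, sub_self, mul_zero]
  have hqr : q * r = 0 := zero_swap a hq hrq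
  refine ⟨q + r, hq.add a hqr, by rw [mul_add, hqr, hq.isIdempotentElem, add_zero],
    fun e => b (by simpa using e), fun n => ⟨?_, fun e => (c n).2 (by rw [← e]; simp)⟩⟩
  have := (c n).1
  rw [mul_sub, hrq, sub_zero] at this
  rw [add_mul, h1, this]

lemma compl_le {A : Type*} [Ring A] [StarRing A] {p q : A} (hp : IsStarProjection p)
    (hq : IsStarProjection q) (h : p * q = p) : (1 - q) * (1 - p) = 1 - q := by
  rw [mul_sub, mul_one, sub_mul, one_mul, proj_swap hp hq h]; simp

lemma lemA' [TopologicalSpace.SeparableSpace H] (p : Calkin H) (l : ℕ → Calkin H)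
    (hp : IsStarProjection p) (hl : ∀ n, IsStarProjection (l n))
    (hd : ∀ n, l n * l (n + 1) = l n) (h1 : ∀ n, l n * p = l n) (h2 : ∀ n, l n ≠ p) :
    ∃ r, IsStarProjection r ∧ r * p = r ∧ r ≠ p ∧ ∀ n, l n * r = l n ∧ l n ≠ r := by
  obtain ⟨r, a, b, c, d⟩ := lemA (1 - p) (fun n => 1 - l n) hp.one_sub (fun n => (hl n).one_sub)
    (fun n => compl_le (hl n) (hl (n + 1)) (hd n)) (fun n => compl_le (hl n) hp (h1 n))
    (fun n e => h2 n (sub_right_injective e).symm)
  refine ⟨1 - r, a.one_sub, by simpa using compl_le hp.one_sub a b,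
    fun e => c (by rw [← e]; simp), fun n => ⟨by simpa using compl_le a (hl n).one_sub (d n).1,
      fun e => (d n).2 (by rw [e]; simp)⟩⟩

lemma lemB [TopologicalSpace.SeparableSpace H] (l u : ℕ → Calkin H)
    (hl : ∀ n, IsStarProjection (l n)) (hu : ∀ n, IsStarProjection (u n))
    (hdl : ∀ n, l n * l (n + 1) = l n) (hdu : ∀ n, u (n + 1) * u n = u (n + 1))
    (h : ∀ n m, l n * u m = l n) :
    ∃ r, IsStarProjection r ∧ ∀ n, l n * r = l n ∧ r * u n = r := by
  let T : ℕ → Type _ := fun n => {X : (H →L[ℂ] H) × (H →L[ℂ] H) // IsStarProjection X.1 ∧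
    IsStarProjection X.2 ∧ π X.1 = l n ∧ π X.2 = u n ∧ X.1 * X.2 = X.1}
  have step : ∀ n (X : T n), ∃ Y : T (n + 1), X.1.1 * Y.1.1 = X.1.1 ∧ Y.1.2 * X.1.2 = Y.1.2 := by
    rintro n ⟨⟨Q, P⟩, h1, h2, h3, h4, h5⟩
    obtain ⟨Q', a1, a2, a3, a4⟩ := lift_between h1 h2 h5 (hl (n + 1))
      (by rw [h3]; exact hdl n) (by rw [h4]; exact h _ _)
    obtain ⟨P', b1, b2, b3, b4⟩ := lift_between a1 h2 a4 (hu (n + 1))
      (by rw [a2]; exact h _ _) (by rw [h4]; exact hdu n)
    exact ⟨⟨(Q', P'), a1, b1, a2, b2, b3⟩, a3, b4⟩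
  choose st hst using step
  obtain ⟨P0, a1, a2, -⟩ := lift_under (IsStarProjection.one (H →L[ℂ] H)) (hu 0) (by simp)
  obtain ⟨Q0, b1, b2, b3⟩ := lift_under a1 (hl 0) (by rw [a2]; exact h _ _)
  let W : ∀ n, T n := fun n => Nat.rec ⟨(Q0, P0), b1, a1, b2, a2, b3⟩ (fun k X => st k X) n
  have hQ : ∀ n m, n ≤ m → (W n).1.1 * (W m).1.1 = (W n).1.1 := by
    intro n m h
    induction h with
    | refl => exact (W n).2.1.isIdempotentElem
    | @step m h ih =>
      have : (W m).1.1 * (W (m + 1)).1.1 = (W m).1.1 := (hst m (W m)).1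
      rw [← ih, mul_assoc, this]
  have hP : ∀ n m, n ≤ m → (W m).1.2 * (W n).1.2 = (W m).1.2 := by
    intro n m h
    induction h with
    | refl => exact (W n).2.2.1.isIdempotentElem
    | @step m h ih =>
      have : (W (m + 1)).1.2 * (W m).1.2 = (W (m + 1)).1.2 := (hst m (W m)).2
      rw [← this, mul_assoc, ih]
  have hQP : ∀ n m, (W n).1.1 * (W m).1.2 = (W n).1.1 := by
    intro n m
    rw [← hQ n (max n m) (le_max_left _ _), ← (W (max n m)).2.2.2.2.2, mul_assoc, mul_assoc,
      hP m _ (le_max_right _ _)]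
  let K : Submodule ℂ H :=
    (Submodule.span ℂ (⋃ n, Set.range (W n).1.1)).topologicalClosure
  have hV : IsStarProjection K.starProjection := isStarProjection_starProjection
  refine ⟨π K.starProjection, proj_π hV, fun n => ⟨?_, ?_⟩⟩
  · have : K.starProjection * (W n).1.1 = (W n).1.1 := by
      ext y
      exact Submodule.starProjection_eq_self_iff.2 (Submodule.le_topologicalClosure _
        (Submodule.subset_span (Set.mem_iUnion.2 ⟨n, y, rfl⟩)))
    have h2 := congrArg star this
    rw [star_mul, hV.isSelfAdjoint.star_eq, (W n).2.1.isSelfAdjoint.star_eq] at h2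
    rw [← (W n).2.2.2.1, ← map_mul, h2]
  · have h1 : (1 - (W n).1.2) * K.starProjection = 0 := by
      apply kill_closure
      rintro _ ⟨_, ⟨m, rfl⟩, y, rfl⟩
      have := proj_swap (W m).2.1 (W n).2.2.1 (hQP m n)
      have h3 : (1 - (W n).1.2) * (W m).1.1 = 0 := by rw [sub_mul, one_mul, this, sub_self]
      exact congrArg (fun T : H →L[ℂ] H => T y) h3
    rw [sub_mul, one_mul, sub_eq_zero] at h1
    have h2 := congrArg star h1
    rw [star_mul, hV.isSelfAdjoint.star_eq, (W n).2.2.1.isSelfAdjoint.star_eq] at h2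
    rw [← (W n).2.2.2.2.1, ← map_mul, ← h2]

end Pool.Agent.H945Z.Had
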